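import Pool.Agent.Helper73.Dil.Rat

open Topology Set Filter MeasureTheory Metric

namespace Pool.Agent.Helper73.Dil

universe u

open DilationSurface

section
variable {X : Type u} [TopologicalSpace X] {D : DilationSurface X}

/-- the base scale function as a twisted function -/
noncomputable def vnotTwist (S : D.Scale) : D.Twist where
  F e x := (S.u e x : ℂ)
  trans e e' he he' x hx hx' := by
    obtain ⟨r, a, b, ha, har, h⟩ := isChart_dil he he' hx hx'
    filter_upwards [h.eventually_nhds, e.open_source.mem_nhds hx, e'.open_source.mem_nhds hx']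
      with y hy hye hye'
    rw [S.trans e e' he he' y hye hye' r ⟨a, b, ha, har, hy⟩,
      S.trans e e' he he' x hx hx' r ⟨a, b, ha, har, h⟩]
    push_cast
    ring
  smooth e he x hx := S.smooth e he x hx

/-- the difference of the potential and of the scale function is locally constant -/
theorem vnot_local (S : D.Scale) {κ : X → ℂ}
    (hκ : ∀ b, D.IsBall b → ∃ k : ℂ, ∀ z ∈ B1, κ (b.symm z) = (S.u b (b.symm z) : ℂ) + k)
    {e : OpenPartialHomeomorph X ℂ} (he : D.IsChart e) {x : X} (hx : x ∈ e.source) :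
    ∀ᶠ y in 𝓝 x, (κ y).re - S.u e y = (κ x).re - S.u e x := by
  obtain ⟨b, hb, hxb, -, -⟩ := sb_BALL X D x (he.1 x hx) univ univ_mem
  obtain ⟨k, hk⟩ := hκ b hb
  obtain ⟨r, a, β, ha, har, h⟩ := isChart_dil hb.1 he hxb hx
  have key : ∀ y, y ∈ b.source → y ∈ e.source → (∀ᶠ y' in 𝓝 y, e y' = a * b y' + β) →
      (κ y).re - S.u e y = k.re - Real.log r := by
    intro y hyb hye hy
    have h1 := S.trans b e hb.1 he y hyb hye r ⟨a, β, ha, har, hy⟩
    have h2 := hk (b y) (by rw [← hb.2]; exact b.map_source hyb)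
    rw [b.left_inv hyb] at h2
    rw [h1, h2, Complex.add_re, Complex.ofReal_re]
    ring
  filter_upwards [h.eventually_nhds, b.open_source.mem_nhds hxb, e.open_source.mem_nhds hx]
    with y hy hyb hye
  rw [key y hyb hye hy, key x hxb hx h]

theorem vnot_path (S : D.Scale) {κ : X → ℂ}
    (hκ : ∀ b, D.IsBall b → ∃ k : ℂ, ∀ z ∈ B1, κ (b.symm z) = (S.u b (b.symm z) : ℂ) + k)
    {e : OpenPartialHomeomorph X ℂ} (he : D.IsChart e) {x : X} (γ : Path x x)
    {s t : unitInterval} (hst : s ≤ t) (h : ∀ u, s ≤ u → u ≤ t → γ u ∈ e.source) :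
    (κ (γ t)).re - S.u e (γ t) = (κ (γ s)).re - S.u e (γ s) := by
  have hpre : IsPreconnected (Icc s t) := isPreconnected_Icc
  refine hpre.induction₂ (fun u u' => (κ (γ u')).re - S.u e (γ u') = (κ (γ u)).re - S.u e (γ u))
    ?_ ?_ ?_ (left_mem_Icc.2 hst) (right_mem_Icc.2 hst)
  · intro u hu
    have h1 := vnot_local S hκ he (h u hu.1 hu.2)
    exact (γ.continuous.continuousAt.eventually h1).filter_mono nhdsWithin_le_nhds
  · intro u v w _ _ _ h1 h2
    exact h2.trans h1
  · intro u v _ _ h1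
    exact h1.symm

theorem vnot_loop (S : D.Scale) {κ : X → ℂ}
    (hκ : ∀ b, D.IsBall b → ∃ k : ℂ, ∀ z ∈ B1, κ (b.symm z) = (S.u b (b.symm z) : ℂ) + k) :
    ¬ D.HolonomyNontrivial := by
  rintro ⟨x, γ, -, r, ⟨n, t, e, s, hmono, h0, h1, hen, hat, hsrc, hdil, rfl⟩, hne⟩
  have hpos : ∀ i < n, 0 < s i := by
    intro i hi
    obtain ⟨a, b, ha, har, -⟩ := hdil i hi
    rw [← har]
    exact abs_pos.2 ha
  have hn : 0 < n := by
    rcases Nat.eq_zero_or_pos n with h | h
    · subst h
      rw [h0] at h1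
      exact absurd h1 zero_ne_one
    · exact h
  have hstep : ∀ i ≤ n, (κ (γ (t i))).re - S.u (e i) (γ (t i)) =
      (κ (γ (t 0))).re - S.u (e 0) (γ (t 0)) - ∑ j ∈ Finset.range i, Real.log (s j) := by
    intro i
    induction i with
    | zero => intro _; simp
    | succ i ih =>
      intro hi
      have hi' : i < n := hi
      have h2 := ih hi'.le
      have h3 := vnot_path S hκ (isChart_of_atlas (hat i)) γ (hmono (Nat.le_succ i)) (hsrc i hi')
      have hm : γ (t (i + 1)) ∈ (e i).source :=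
        hsrc i hi' _ (hmono (Nat.le_succ i)) le_rfl
      have hm' : γ (t (i + 1)) ∈ (e (i + 1)).source := by
        rcases Nat.lt_or_ge (i + 1) n with h | h
        · exact hsrc (i + 1) h _ le_rfl (hmono (Nat.le_succ _))
        · have : i + 1 = n := le_antisymm hi h
          rw [this, h1, hen, γ.target, ← γ.source, ← h0]
          exact hsrc 0 hn _ le_rfl (hmono (Nat.le_succ _))
      have h4 := S.trans (e i) (e (i + 1)) (isChart_of_atlas (hat i)) (isChart_of_atlas (hat _))
        _ hm hm' (s i) (hdil i hi')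
      rw [Finset.sum_range_succ, h4]
      linarith
  have h2 := hstep n le_rfl
  rw [h1, h0, hen, γ.target, γ.source] at h2
  have h3 : ∑ j ∈ Finset.range n, Real.log (s j) = 0 := by linarith
  rw [← Real.log_prod (fun i hi => (hpos i (Finset.mem_range.1 hi)).ne')] at h3
  have h4 : 0 < ∏ i ∈ Finset.range n, s i :=
    Finset.prod_pos fun i hi => hpos i (Finset.mem_range.1 hi)
  exact hne (Real.eq_one_of_pos_of_log_eq_zero h4 h3)

end

theorem sb_VNOT (hPOT : SB_POT.{u}) (hLOCL : SB_LOCL.{u}) (hLOCG : SB_LOCG.{u}) :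
    SB_VNOT.{u} := by
  intro X _ _ _ _ _ _ D R S hhol v hv hvE
  obtain ⟨κ, hκ⟩ := hPOT X D R v (fun b z => (S.u b (b.symm z) : ℂ)) hvE (by
    intro b hb
    obtain ⟨L, -, -, hL⟩ := (hLOCL X D R).1 b hb
    refine ⟨?_, ?_, ?_⟩
    · intro z hz
      have hz' : z ∈ b.target := by rw [hb.2]; exact hz
      have h1 := S.smooth b hb.1 (b.symm z) (b.map_target hz')
      rw [b.right_inv hz'] at h1
      exact (h1.of_le (by exact_mod_cast le_top)).contDiffWithinAt
    · refine (hL v.1 _ hv.1).trans ?_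
      refine (ae_restrict_iff' (by rw [B1]; exact measurableSet_ball)).2 (ae_of_all _ fun z hz => ?_)
      exact ((hLOCG X D R (vnotTwist S) b hb z hz).1)
    · refine (hL v.2 _ hv.2).trans ?_
      refine (ae_restrict_iff' (by rw [B1]; exact measurableSet_ball)).2 (ae_of_all _ fun z hz => ?_)
      exact ((hLOCG X D R (vnotTwist S) b hb z hz).2))
  exact vnot_loop S hκ hhol

end Pool.Agent.Helper73.Dil
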