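import Pool.Agent.Helper73.Dil.Pure

/-! # Abstract Step A -/

open Topology Set Filter Metric

namespace Pool.Agent.Helper37.Dil

universe u

open Pool.Agent.Helper73.Dil

section conj

variable {H : Type*} [NormedAddCommGroup H] [InnerProductSpace ℂ H] (J : Conj H)

theorem c_zero : J.c 0 = 0 := by
  have h := J.add 0 0
  simpa using h

theorem c_neg (f : H) : J.c (-f) = -J.c f := by
  have h := J.smul (-1) f
  simpa using h

theorem c_sub (f g : H) : J.c (f - g) = J.c f - J.c g := by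
  rw [sub_eq_add_neg, J.add, c_neg, ← sub_eq_add_neg]

theorem c_norm (f : H) : ‖J.c f‖ = ‖f‖ := by
  have h := J.inner f f
  have h1 : ‖J.c f‖ ^ 2 = ‖f‖ ^ 2 := by
    have h2 := inner_self_eq_norm_sq_to_K (𝕜 := ℂ) (J.c f)
    have h3 := inner_self_eq_norm_sq_to_K (𝕜 := ℂ) f
    rw [h2, h3] at h
    exact_mod_cast h
  have := (sq_eq_sq₀ (norm_nonneg _) (norm_nonneg _)).1 h1
  exact this

theorem c_swap (f g : H) : inner ℂ (J.c f) g = inner ℂ (J.c g) f := by
  have h := J.inner f (J.c g)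
  rwa [J.invol] at h

/-- componentwise conjugation -/
def cc (α : H × H) : H × H := (J.c α.1, J.c α.2)

theorem cc_add (α β : H × H) : cc J (α + β) = cc J α + cc J β := by
  simp [cc, J.add]

theorem cc_sub (α β : H × H) : cc J (α - β) = cc J α - cc J β := by
  simp [cc, c_sub]

theorem cc_smul (z : ℂ) (α : H × H) : cc J (z • α) = (starRingEnd ℂ) z • cc J α := by
  simp [cc, J.smul]

theorem cc_cc (α : H × H) : cc J (cc J α) = α := by
  simp [cc, J.invol]

theorem om_add_left (α α' β : H × H) : Om J (α + α') β = Om J α β + Om J α' β := by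
  simp only [Om, Prod.fst_add, Prod.snd_add, J.add, inner_add_left]
  ring

theorem om_add_right (α β β' : H × H) : Om J α (β + β') = Om J α β + Om J α β' := by
  simp only [Om, Prod.fst_add, Prod.snd_add, inner_add_right]
  ring

theorem om_smul_left (z : ℂ) (α β : H × H) : Om J (z • α) β = z * Om J α β := by
  simp only [Om, Prod.smul_fst, Prod.smul_snd, J.smul, inner_smul_left, Complex.conj_conj]
  ring

theorem om_smul_right (z : ℂ) (α β : H × H) : Om J α (z • β) = z * Om J α β := by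
  simp only [Om, Prod.smul_fst, Prod.smul_snd, inner_smul_right]
  ring

theorem om_sub_left (α α' β : H × H) : Om J (α - α') β = Om J α β - Om J α' β := by
  have h := om_add_left J (α - α') α' β
  rw [sub_add_cancel] at h
  rw [h]; ring

theorem om_sub_right (α β β' : H × H) : Om J α (β - β') = Om J α β - Om J α β' := by
  have h := om_add_right J α (β - β') β'
  rw [sub_add_cancel] at h
  rw [h]; ring

theorem om_symm (α β : H × H) : Om J α β = -Om J β α := by
  simp only [Om]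
  rw [c_swap J α.1 β.2, c_swap J α.2 β.1]
  ring

theorem om_self (α : H × H) : Om J α α = 0 := by
  have h := om_symm J α α
  have h2 : (2 : ℂ) * Om J α α = 0 := by linear_combination h
  simpa using h2

theorem om_cc (α β : H × H) : Om J (cc J α) (cc J β) = (starRingEnd ℂ) (Om J α β) := by
  simp only [Om, cc, map_sub]
  rw [J.inner (J.c α.1) β.2, J.inner (J.c α.2) β.1, inner_conj_symm, inner_conj_symm]

/-- the map `(f,g) ↦ g - t f` -/
noncomputable def TT (t : ℂ) : (H × H) →L[ℂ] H :=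
  ContinuousLinearMap.snd ℂ H H - t • ContinuousLinearMap.fst ℂ H H

@[simp] theorem TT_apply (t : ℂ) (α : H × H) : TT t α = α.2 - t • α.1 := by
  simp [TT]

theorem real_inner {f g : H} (hf : J.c f = f) (hg : J.c g = g) : (inner ℂ f g : ℂ).im = 0 := by
  have h := J.inner f g
  rw [hf, hg] at h
  have h2 := congrArg Complex.im h
  have h3 := congrArg Complex.im (inner_conj_symm f g)
  simp only [Complex.conj_im] at h3
  linarith

/-- `Om` of real forms in terms of `TT t`. -/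
theorem om_real {t : ℂ} {α β : H × H} (hα : cc J α = α) (hβ : cc J β = β) :
    (inner ℂ (TT t α) (TT t β) : ℂ).im = t.im * (Om J α β).re ∧ (Om J α β).im = 0 := by
  have h1 : J.c α.1 = α.1 := congrArg Prod.fst hα
  have h2 : J.c α.2 = α.2 := congrArg Prod.snd hα
  have h3 : J.c β.1 = β.1 := congrArg Prod.fst hβ
  have h4 : J.c β.2 = β.2 := congrArg Prod.snd hβ
  have e11 := real_inner J h1 h3
  have e12 := real_inner J h1 h4
  have e21 := real_inner J h2 h3
  have e22 := real_inner J h2 h4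
  constructor
  · simp only [TT_apply, Om, h1, h2, inner_sub_left, inner_sub_right, inner_smul_left,
      inner_smul_right, Complex.sub_im, Complex.sub_re, Complex.mul_im, Complex.mul_re,
      Complex.conj_re, Complex.conj_im, e11, e12, e21, e22]
    ring
  · simp only [Om, h1, h2, Complex.sub_im, e12, e21, sub_self]

/-- norm of `TT t` on forms with real inner product of the components -/
theorem norm_TT {t : ℂ} {α : H × H} (h : (inner ℂ α.1 α.2 : ℂ).im = 0) :
    ‖TT t α‖ ^ 2 = ‖α.2 - (t.re : ℂ) • α.1‖ ^ 2 + t.im ^ 2 * ‖α.1‖ ^ 2 := by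
  have h1 : TT t α = (α.2 - (t.re : ℂ) • α.1) - (Complex.I * t.im) • α.1 := by
    rw [TT_apply, sub_sub, ← add_smul]
    congr 2
    apply Complex.ext <;> simp
  have h2 : (inner ℂ α.2 α.1 : ℂ).im = 0 := by
    have h3 := congrArg Complex.im (inner_conj_symm α.1 α.2)
    simp only [Complex.conj_im] at h3
    linarith
  rw [h1, norm_sub_sq (𝕜 := ℂ)]
  have h4 : (inner ℂ (α.2 - (t.re : ℂ) • α.1) ((Complex.I * t.im) • α.1) : ℂ).re = 0 := by
    rw [inner_smul_right, inner_sub_left, inner_smul_left, Complex.conj_ofReal,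
      inner_self_eq_norm_sq_to_K]
    have : ((t.re : ℂ) * ((‖α.1‖ : ℂ)) ^ 2).im = 0 := by
      rw [← Complex.ofReal_pow, ← Complex.ofReal_mul]
      exact Complex.ofReal_im _
    simp only [Complex.mul_re, Complex.mul_im, Complex.sub_re, Complex.sub_im, Complex.I_re,
      Complex.I_im, Complex.ofReal_re, Complex.ofReal_im, h2]
    have h5 : ((t.re : ℂ) * ((‖α.1‖ : ℂ)) ^ 2).im = t.re * (((‖α.1‖ : ℂ)) ^ 2).im + 0 := by
      simp [Complex.mul_im]
    have h6 : (((‖α.1‖ : ℂ)) ^ 2).im = 0 := by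
      rw [← Complex.ofReal_pow]; exact Complex.ofReal_im _
    simp [h6]
  have h7 : ‖(Complex.I * (t.im : ℂ)) • α.1‖ ^ 2 = t.im ^ 2 * ‖α.1‖ ^ 2 := by
    rw [norm_smul, mul_pow]
    simp
  have h8 : RCLike.re (inner ℂ (α.2 - (t.re : ℂ) • α.1) ((Complex.I * t.im) • α.1) : ℂ) = 0 := h4
  rw [h8, h7]
  ring

end conj

section lagr

variable {H : Type*} [NormedAddCommGroup H] [InnerProductSpace ℂ H]

/-- admissible subspaces -/
structure Adm (A : AbsData H) (S : Submodule ℂ (H × H)) : Prop where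
  le : A.E ≤ S
  v : A.v ∈ S
  conj : ∀ α ∈ S, cc A.J α ∈ S
  iso : ∀ α ∈ S, ∀ β ∈ S, Om A.J α β = 0

theorem cc_v (A : AbsData H) : cc A.J A.v = A.v := Prod.ext A.vreal.1 A.vreal.2

/-- adding a real isotropic vector -/
theorem adm_sup {A : AbsData H} {S : Submodule ℂ (H × H)} {x : H × H} (hle : A.E ≤ S)
    (hv : A.v ∈ S ∨ x = A.v) (hc : ∀ α ∈ S, cc A.J α ∈ S)
    (hi : ∀ α ∈ S, ∀ β ∈ S, Om A.J α β = 0) (hx : cc A.J x = x) (hxS : ∀ α ∈ S, Om A.J x α = 0) :
    Adm A (S ⊔ Submodule.span ℂ {x}) where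
  le := hle.trans le_sup_left
  v := by
    rcases hv with hv | rfl
    · exact le_sup_left (a := S) hv
    · exact (le_sup_right : Submodule.span ℂ {A.v} ≤ S ⊔ Submodule.span ℂ {A.v})
        (Submodule.mem_span_singleton_self _)
  conj := by
    intro α hα
    obtain ⟨s, hs, y, hy, rfl⟩ := Submodule.mem_sup.1 hα
    obtain ⟨z, rfl⟩ := Submodule.mem_span_singleton.1 hy
    rw [cc_add, cc_smul, hx]
    exact Submodule.add_mem_sup (hc s hs) (Submodule.smul_mem _ _
      (Submodule.mem_span_singleton_self _))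
  iso := by
    intro α hα β hβ
    obtain ⟨s, hs, y, hy, rfl⟩ := Submodule.mem_sup.1 hα
    obtain ⟨z, rfl⟩ := Submodule.mem_span_singleton.1 hy
    obtain ⟨s', hs', y', hy', rfl⟩ := Submodule.mem_sup.1 hβ
    obtain ⟨z', rfl⟩ := Submodule.mem_span_singleton.1 hy'
    have h1 : Om A.J s x = 0 := by rw [om_symm, hxS s hs, neg_zero]
    rw [om_add_left, om_add_right, om_add_right, om_smul_left, om_smul_right, om_smul_right,
      om_smul_left, hi s hs s' hs', hxS s' hs', h1, om_self]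
    ring

theorem exists_adm (A : AbsData H) : ∃ S, Adm A S := by
  refine ⟨_, adm_sup (A := A) (S := A.E) (x := A.v) le_rfl (Or.inr rfl) (fun α hα => ?_)
    A.iso (cc_v A) A.vclosed⟩
  exact A.conj α hα

/-- a maximal admissible subspace -/
theorem exists_max (A : AbsData H) : ∃ S, Maximal (Adm A) S := by
  obtain ⟨S0, h0⟩ := exists_adm A
  obtain ⟨m, -, hm⟩ := zorn_le_nonempty₀ {S | Adm A S} (fun c hc hchain y hy => by
    refine ⟨sSup c, ?_, fun z hz => le_sSup hz⟩
    have hdir : DirectedOn (· ≤ ·) c := hchain.directedOn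
    have hne : c.Nonempty := ⟨y, hy⟩
    have hmem : ∀ α, α ∈ sSup c ↔ ∃ S ∈ c, α ∈ S := fun α =>
      Submodule.mem_sSup_of_directed hne hdir
    refine ⟨(hc hy).le.trans (le_sSup hy), (le_sSup hy) (hc hy).v, ?_, ?_⟩
    · intro α hα
      obtain ⟨S, hS, h⟩ := (hmem α).1 hα
      exact (hmem _).2 ⟨S, hS, (hc hS).conj α h⟩
    · intro α hα β hβ
      obtain ⟨S, hS, h⟩ := (hmem α).1 hα
      obtain ⟨S', hS', h'⟩ := (hmem β).1 hβ
      obtain ⟨S'', hS'', h1, h2⟩ := hdir S hS S' hS'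
      exact (hc hS'').iso α (h1 h) β (h2 h')) S0 h0
  exact ⟨m, hm⟩

/-- maximal admissible subspaces are Lagrangian -/
theorem mem_of_perp {A : AbsData H} {S : Submodule ℂ (H × H)} (hS : Maximal (Adm A) S)
    {x : H × H} (hx : ∀ α ∈ S, Om A.J x α = 0) : x ∈ S := by
  have key : ∀ y : H × H, cc A.J y = y → (∀ α ∈ S, Om A.J y α = 0) → y ∈ S := by
    intro y hy h
    have h1 := adm_sup (A := A) (S := S) (x := y) hS.prop.le (Or.inl hS.prop.v) hS.prop.conj
      hS.prop.iso hy h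
    have h2 := hS.le_of_ge h1 le_sup_left
    exact h2 ((le_sup_right : Submodule.span ℂ {y} ≤ S ⊔ Submodule.span ℂ {y})
      (Submodule.mem_span_singleton_self _))
  have hcx : ∀ α ∈ S, Om A.J (cc A.J x) α = 0 := by
    intro α hα
    have h := om_cc A.J x (cc A.J α)
    rw [cc_cc, hx _ (hS.prop.conj α hα), map_zero] at h
    exact h
  have h1 : x + cc A.J x ∈ S := by
    refine key _ ?_ (fun α hα => ?_)
    · rw [cc_add, cc_cc, add_comm]
    · rw [om_add_left, hx α hα, hcx α hα, add_zero]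
  have h2 : Complex.I • (x - cc A.J x) ∈ S := by
    refine key _ ?_ (fun α hα => ?_)
    · rw [cc_smul, cc_sub, cc_cc, Complex.conj_I, neg_smul, ← smul_neg, neg_sub]
    · rw [om_smul_left, om_sub_left, hx α hα, hcx α hα]; simp
  have h3 : x - cc A.J x ∈ S := by
    have := S.smul_mem (-Complex.I) h2
    rwa [smul_smul, neg_mul, Complex.I_mul_I, neg_neg, one_smul] at this
  have h4 := S.add_mem h1 h3
  have h5 : x + cc A.J x + (x - cc A.J x) = (2 : ℂ) • x := by
    rw [two_smul]; abel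
  rw [h5] at h4
  have := S.smul_mem (1 / 2 : ℂ) h4
  rwa [smul_smul, show (1 / 2 : ℂ) * 2 = 1 by norm_num, one_smul] at this

theorem om_cont (J : Conj H) (β : H × H) : Continuous (fun α => Om J β α) := by
  unfold Om
  fun_prop

theorem S_closed {A : AbsData H} {S : Submodule ℂ (H × H)} (hS : Maximal (Adm A) S) :
    IsClosed (S : Set (H × H)) := by
  have : (S : Set (H × H)) = ⋂ α ∈ S, {x | Om A.J α x = 0} := by
    ext x
    simp only [mem_iInter, Set.mem_ofPred_eq, SetLike.mem_coe]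
    constructor
    · intro hx α hα
      exact hS.prop.iso α hα x hx
    · intro h
      exact mem_of_perp hS (fun α hα => by rw [om_symm, h α hα, neg_zero])
  rw [this]
  refine isClosed_biInter (fun α _ => ?_)
  exact isClosed_eq (om_cont A.J α) continuous_const

/-- on a Lagrangian subspace the components have real inner product -/
theorem im_inner {A : AbsData H} {S : Submodule ℂ (H × H)} (hS : Adm A S) {α : H × H}
    (hα : α ∈ S) : (inner ℂ α.1 α.2 : ℂ).im = 0 := by
  have h := hS.iso _ (hS.conj α hα) α hα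
  simp only [Om, cc, A.J.invol] at h
  have h2 := congrArg Complex.im h
  have h3 := congrArg Complex.im (inner_conj_symm α.1 α.2)
  simp only [Complex.conj_im, Complex.sub_im, Complex.zero_im] at h2 h3
  linarith

theorem Qf_eq {A : AbsData H} {S : Submodule ℂ (H × H)} (hS : Adm A S) {α : H × H}
    (hα : α ∈ S) {t : ℂ} (ht : 0 < t.im) : Qf t α = ‖TT t α‖ ^ 2 / t.im := by
  rw [norm_TT (im_inner hS hα), Qf]
  field_simp

theorem norm_le {A : AbsData H} {S : Submodule ℂ (H × H)} (hS : Adm A S) {α : H × H}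
    (hα : α ∈ S) {t : ℂ} (ht : 0 < t.im) :
    ‖α‖ ≤ (1 / t.im + 1 + |t.re| / t.im) * ‖TT t α‖ := by
  have h := norm_TT (t := t) (im_inner hS hα)
  have h1 : t.im * ‖α.1‖ ≤ ‖TT t α‖ := by
    refine le_of_sq_le_sq ?_ (norm_nonneg _)
    rw [h, mul_pow]
    nlinarith [sq_nonneg ‖α.2 - (t.re : ℂ) • α.1‖]
  have h2 : ‖α.2 - (t.re : ℂ) • α.1‖ ≤ ‖TT t α‖ := by
    refine le_of_sq_le_sq ?_ (norm_nonneg _)
    rw [h]
    nlinarith [mul_nonneg (sq_nonneg t.im) (sq_nonneg ‖α.1‖)]
  have h3 : ‖α.1‖ ≤ (1 / t.im) * ‖TT t α‖ := by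
    rw [one_div, inv_mul_eq_div, le_div_iff₀ ht, mul_comm]
    exact h1
  have h4 : ‖α.2‖ ≤ (1 + |t.re| / t.im) * ‖TT t α‖ := by
    have h5 : ‖α.2‖ ≤ ‖α.2 - (t.re : ℂ) • α.1‖ + ‖(t.re : ℂ) • α.1‖ := by
      have := norm_add_le (α.2 - (t.re : ℂ) • α.1) ((t.re : ℂ) • α.1)
      rwa [sub_add_cancel] at this
    have h6 : ‖(t.re : ℂ) • α.1‖ = |t.re| * ‖α.1‖ := by
      rw [norm_smul, Complex.norm_real, Real.norm_eq_abs]
    have h7 : |t.re| * ‖α.1‖ ≤ |t.re| * ((1 / t.im) * ‖TT t α‖) :=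
      mul_le_mul_of_nonneg_left h3 (abs_nonneg _)
    have h8 : (1 + |t.re| / t.im) * ‖TT t α‖ = ‖TT t α‖ + |t.re| * ((1 / t.im) * ‖TT t α‖) := by
      ring
    rw [h8]
    linarith
  have hn := norm_nonneg (TT t α)
  have ht' : 0 ≤ 1 / t.im := by positivity
  have ht'' : 0 ≤ |t.re| / t.im := by positivity
  rw [Prod.norm_def]
  refine max_le (h3.trans ?_) (h4.trans ?_)
  · exact mul_le_mul_of_nonneg_right (by linarith) hn
  · exact mul_le_mul_of_nonneg_right (by linarith) hn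

/-- the restriction of `TT t` to `S` -/
noncomputable def TS (S : Submodule ℂ (H × H)) (t : ℂ) : S →L[ℂ] H := (TT t).comp S.subtypeL

@[simp] theorem TS_apply (S : Submodule ℂ (H × H)) (t : ℂ) (α : S) : TS S t α = TT t α.1 := rfl

variable [CompleteSpace H]

omit [CompleteSpace H] in
theorem TS_ker {A : AbsData H} {S : Submodule ℂ (H × H)} (hS : Adm A S) {t : ℂ}
    (ht : 0 < t.im) : (TS S t).ker = ⊥ := by
  rw [LinearMap.ker_eq_bot']
  intro α hα
  have h := norm_le hS α.2 ht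
  have h1 : TT t α.1 = 0 := hα
  rw [h1, norm_zero, mul_zero] at h
  have h2 : (α.1 : H × H) = 0 := norm_le_zero_iff.1 h
  exact Subtype.ext h2

theorem TS_range {A : AbsData H} {S : Submodule ℂ (H × H)} (hS : Maximal (Adm A) S) {t : ℂ}
    (ht : 0 < t.im) : (TS S t).range = ⊤ := by
  have : CompleteSpace S := (S_closed hS).completeSpace_coe
  have hcl : IsClosed ((TS S t).range : Set H) := by
    have h1 : AntilipschitzWith (Real.toNNReal (1 / t.im + 1 + |t.re| / t.im)) (TS S t) := by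
      refine AddMonoidHomClass.antilipschitz_of_bound (TS S t) (fun α => ?_)
      have h2 : (0 : ℝ) ≤ 1 / t.im + 1 + |t.re| / t.im := by positivity
      rw [Real.coe_toNNReal _ h2]
      exact norm_le hS.prop α.2 ht
    exact h1.isClosed_range (TS S t).uniformContinuous
  have : CompleteSpace (TS S t).range := hcl.completeSpace_coe
  rw [← Submodule.orthogonal_eq_bot_iff, Submodule.eq_bot_iff]
  intro m hm
  have h1 : ∀ α ∈ S, inner ℂ (TT t α) m = 0 := fun α hα =>
    (Submodule.mem_orthogonal _ m).1 hm _ ⟨⟨α, hα⟩, rfl⟩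
  have h2 : ((A.J.c m, t • A.J.c m) : H × H) ∈ S := by
    refine mem_of_perp hS (fun α hα => ?_)
    have h3 := h1 α hα
    have h4 : inner ℂ m (TT t α) = 0 := by
      rw [← inner_conj_symm, h3, map_zero]
    simp only [Om, A.J.smul, A.J.invol, inner_smul_left, Complex.conj_conj]
    rw [TT_apply, inner_sub_right, inner_smul_right] at h4
    exact h4
  have h5 := norm_le hS.prop h2 ht
  have h6 : TT t ((A.J.c m, t • A.J.c m) : H × H) = 0 := by simp
  rw [h6, norm_zero, mul_zero] at h5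
  have h7 := norm_le_zero_iff.1 h5
  have h8 : A.J.c m = 0 := congrArg Prod.fst h7
  have h9 := A.J.invol m
  rw [h8, c_zero] at h9
  exact h9.symm

/-- the isomorphism `S ≃ H` -/
noncomputable def TE {A : AbsData H} {S : Submodule ℂ (H × H)} (hS : Maximal (Adm A) S) {t : ℂ}
    (ht : 0 < t.im) : S ≃L[ℂ] H :=
  haveI : CompleteSpace S := (S_closed hS).completeSpace_coe
  ContinuousLinearEquiv.ofBijective (TS S t) (TS_ker hS.prop ht) (TS_range hS ht)

theorem TE_coe {A : AbsData H} {S : Submodule ℂ (H × H)} (hS : Maximal (Adm A) S) {t : ℂ}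
    (ht : 0 < t.im) : ((TE hS ht : S ≃L[ℂ] H) : S →L[ℂ] H) = TS S t := by
  have : CompleteSpace S := (S_closed hS).completeSpace_coe
  exact ContinuousLinearEquiv.coe_ofBijective _ _ _

/-- `λ_t(x)` -/
noncomputable def lamb (S : Submodule ℂ (H × H)) (x : H × H) (t : ℂ) : S :=
  (TS S t).inverse (TT t x)

theorem TT_lamb {A : AbsData H} {S : Submodule ℂ (H × H)} (hS : Maximal (Adm A) S) {t : ℂ}
    (ht : 0 < t.im) (x : H × H) : TT t (lamb S x t).1 = TT t x := by
  unfold lamb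
  rw [← TE_coe hS ht, ContinuousLinearMap.inverse_equiv]
  have h := (TE hS ht).apply_symm_apply (TT t x)
  have h2 : (TE hS ht) ((TE hS ht).symm (TT t x)) = TS S t ((TE hS ht).symm (TT t x)) := by
    rw [← TE_coe hS ht]; rfl
  rw [h2] at h
  exact h

omit [CompleteSpace H] in
theorem TT_inj {A : AbsData H} {S : Submodule ℂ (H × H)} (hS : Adm A S) {t : ℂ}
    (ht : 0 < t.im) {α β : H × H} (hα : α ∈ S) (hβ : β ∈ S) (h : TT t α = TT t β) : α = β := by
  have h1 := norm_le hS (S.sub_mem hα hβ) ht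
  rw [map_sub, h, sub_self, norm_zero, mul_zero] at h1
  exact sub_eq_zero.1 (norm_le_zero_iff.1 h1)

theorem TT_surj {A : AbsData H} {S : Submodule ℂ (H × H)} (hS : Maximal (Adm A) S) {t : ℂ}
    (ht : 0 < t.im) (y : H) : ∃ α ∈ S, TT t α = y := by
  have h : y ∈ (TS S t).range := by rw [TS_range hS ht]; trivial
  obtain ⟨α, hα⟩ := h
  exact ⟨α.1, α.2, hα⟩

theorem inv_diff {E F : Type*} [NormedAddCommGroup E] [NormedSpace ℂ E] [CompleteSpace E]
    [NormedAddCommGroup F] [NormedSpace ℂ F] (a b : E →L[ℂ] F) (y : ℂ → F) (t : ℂ)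
    (hy : DifferentiableAt ℂ y t) (e : E ≃L[ℂ] F) (he : (e : E →L[ℂ] F) = a - t • b) :
    DifferentiableAt ℂ (fun s => (a - s • b).inverse (y s)) t := by
  have hd2 : DifferentiableAt ℂ (fun s => a - s • b) t := by fun_prop
  have hd3 : DifferentiableAt ℂ (ContinuousLinearMap.inverse : (E →L[ℂ] F) → (F →L[ℂ] E))
      (a - t • b) := by
    rw [← he]
    exact (contDiffAt_map_inverse (𝕜 := ℂ) (n := 1) e).differentiableAt one_ne_zero
  have h4 : DifferentiableAt ℂ
      ((ContinuousLinearMap.inverse : (E →L[ℂ] F) → (F →L[ℂ] E)) ∘ (fun s => a - s • b)) t :=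
    DifferentiableAt.comp t hd3 hd2
  exact h4.clm_apply hy

theorem lamb_diff {A : AbsData H} {S : Submodule ℂ (H × H)} (hS : Maximal (Adm A) S)
    (x : H × H) : DifferentiableOn ℂ (lamb S x) UH := by
  have : CompleteSpace S := (S_closed hS).completeSpace_coe
  intro t ht
  have hd1 : DifferentiableAt ℂ (fun t => TT t x) t := by
    simp only [TT_apply]
    fun_prop
  have h1 : ∀ s : ℂ, TS S s = (ContinuousLinearMap.snd ℂ H H).comp S.subtypeL -
        s • (ContinuousLinearMap.fst ℂ H H).comp S.subtypeL := by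
    intro s
    ext α
    simp [TT_apply]
  have h2 := inv_diff _ _ _ t hd1 (TE hS ht) ((TE_coe hS ht).trans (h1 t))
  have h3 : lamb S x = fun s => ((ContinuousLinearMap.snd ℂ H H).comp S.subtypeL -
        s • (ContinuousLinearMap.fst ℂ H H).comp S.subtypeL).inverse (TT s x) := by
    funext s
    unfold lamb
    rw [h1 s]
  rw [h3]
  exact h2.differentiableWithinAt

end lagr

section main

variable {H : Type*} [NormedAddCommGroup H] [InnerProductSpace ℂ H]

/-- real part of a form -/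
noncomputable def reF (J : Conj H) (α : H × H) : H × H := (1 / 2 : ℂ) • (α + cc J α)

/-- imaginary part of a form -/
noncomputable def imF (J : Conj H) (α : H × H) : H × H := (-Complex.I / 2) • (α - cc J α)

theorem conj2 : (starRingEnd ℂ) 2 = 2 := Complex.conj_ofNat 2

theorem cc_reF (J : Conj H) (α : H × H) : cc J (reF J α) = reF J α := by
  rw [reF, cc_smul, cc_add, cc_cc, add_comm]
  simp [conj2]

theorem cc_imF (J : Conj H) (α : H × H) : cc J (imF J α) = imF J α := by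
  rw [imF, cc_smul, cc_sub, cc_cc]
  have h : (starRingEnd ℂ) (-Complex.I / 2) = -(-Complex.I / 2) := by
    rw [map_div₀, map_neg, Complex.conj_I, conj2]; ring
  rw [h, neg_smul, ← smul_neg, neg_sub]

theorem re_add_im (J : Conj H) (α : H × H) : reF J α + Complex.I • imF J α = α := by
  rw [reF, imF, smul_smul]
  have h : Complex.I * (-Complex.I / 2) = 1 / 2 := by
    rw [mul_div_assoc', mul_neg, Complex.I_mul_I]; norm_num
  rw [h, ← smul_add]
  have h2 : α + cc J α + (α - cc J α) = (2 : ℂ) • α := by rw [two_smul]; abel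
  rw [h2, smul_smul]
  norm_num

theorem reF_mem {A : AbsData H} {S : Submodule ℂ (H × H)} (hc : ∀ α ∈ S, cc A.J α ∈ S)
    {α : H × H} (hα : α ∈ S) : reF A.J α ∈ S := S.smul_mem _ (S.add_mem hα (hc α hα))

theorem imF_mem {A : AbsData H} {S : Submodule ℂ (H × H)} (hc : ∀ α ∈ S, cc A.J α ∈ S)
    {α : H × H} (hα : α ∈ S) : imF A.J α ∈ S := S.smul_mem _ (S.sub_mem hα (hc α hα))

theorem inner_cc {A : AbsData H} {S : Submodule ℂ (H × H)} (hS : Adm A S) {t : ℂ}
    {α β : H × H} (hα : α ∈ S) (hβ : β ∈ S) :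
    inner ℂ (TT t (cc A.J α)) (TT t (cc A.J β)) =
      (starRingEnd ℂ) (inner ℂ (TT t α) (TT t β)) := by
  have h := hS.iso _ (hS.conj α hα) β hβ
  simp only [Om, cc, A.J.invol] at h
  have h' : inner ℂ β.2 α.1 - inner ℂ β.1 α.2 = (0 : ℂ) := by
    have h2 := congrArg (starRingEnd ℂ) h
    simpa only [map_sub, inner_conj_symm, map_zero] using h2
  simp only [TT_apply, cc, inner_sub_left, inner_sub_right, inner_smul_left, inner_smul_right,
    map_sub, map_mul, inner_conj_symm, Complex.conj_conj, A.J.inner]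
  linear_combination ((starRingEnd ℂ) t - t) * (-h')

theorem norm_cc {A : AbsData H} {S : Submodule ℂ (H × H)} (hS : Adm A S) {t : ℂ}
    {α : H × H} (hα : α ∈ S) : ‖TT t (cc A.J α)‖ = ‖TT t α‖ := by
  have h := inner_cc hS (t := t) hα hα
  have h2 := inner_self_eq_norm_sq_to_K (𝕜 := ℂ) (TT t (cc A.J α))
  have h3 := inner_self_eq_norm_sq_to_K (𝕜 := ℂ) (TT t α)
  rw [h2, h3] at h
  have h4 : ‖TT t (cc A.J α)‖ ^ 2 = ‖TT t α‖ ^ 2 := by
    have h5 : (starRingEnd ℂ) ((‖TT t α‖ : ℂ) ^ 2) = (‖TT t α‖ : ℂ) ^ 2 := by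
      rw [← Complex.ofReal_pow, Complex.conj_ofReal]
    have h6 : ((‖TT t (cc A.J α)‖ : ℂ)) ^ 2 = (‖TT t α‖ : ℂ) ^ 2 := h.trans h5
    exact_mod_cast h6
  exact (sq_eq_sq₀ (norm_nonneg _) (norm_nonneg _)).1 h4

theorem norm_reF_le {A : AbsData H} {S : Submodule ℂ (H × H)} (hS : Adm A S) {t : ℂ}
    {α : H × H} (hα : α ∈ S) : ‖TT t (reF A.J α)‖ ≤ ‖TT t α‖ := by
  rw [reF, map_smul, map_add, norm_smul]
  have h1 := norm_add_le (TT t α) (TT t (cc A.J α))
  rw [norm_cc hS hα] at h1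
  have h2 : ‖(1 / 2 : ℂ)‖ = 1 / 2 := by simp
  rw [h2]
  linarith

/-- a real closed form `x` -/
structure RX (A : AbsData H) (x : H × H) : Prop where
  real : cc A.J x = x
  v : Om A.J A.v x = 1
  e : ∀ ε ∈ A.E, Om A.J ε x = 0

/-- pairing of a real form of `S` with `x` -/
theorem om_x {A : AbsData H} {S : Submodule ℂ (H × H)} (hS : Adm A S) {t : ℂ}
    (ht : 0 < t.im) {x l : H × H} (hx : cc A.J x = x) (hl : l ∈ S) (hT : TT t l = TT t x)
    {α : H × H} (hα : α ∈ S) (hr : cc A.J α = α) :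
    (Om A.J α x).re = (inner ℂ (TT t α) (TT t (imF A.J l)) : ℂ).re / t.im ∧
      (Om A.J α x).im = 0 := by
  have ha : reF A.J l ∈ S := reF_mem hS.conj hl
  have h1 : Om A.J α x = Om A.J α (x - reF A.J l) := by
    rw [om_sub_right, hS.iso α hα _ ha, sub_zero]
  have h2 : cc A.J (x - reF A.J l) = x - reF A.J l := by rw [cc_sub, hx, cc_reF]
  have h3 : TT t (x - reF A.J l) = Complex.I • TT t (imF A.J l) := by
    have h4 := re_add_im A.J l
    have h5 : TT t x = TT t (reF A.J l) + Complex.I • TT t (imF A.J l) := by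
      rw [← hT, ← map_smul, ← map_add, h4]
    rw [map_sub, h5, add_sub_cancel_left]
  obtain ⟨h6, h7⟩ := om_real A.J (t := t) hr h2
  rw [h1]
  refine ⟨?_, h7⟩
  rw [h3, inner_smul_right] at h6
  have h8 : (Complex.I * inner ℂ (TT t α) (TT t (imF A.J l))).im =
      (inner ℂ (TT t α) (TT t (imF A.J l)) : ℂ).re := by
    simp [Complex.mul_im]
  rw [h8] at h6
  rw [h6]
  field_simp

theorem om_l_im {A : AbsData H} {S : Submodule ℂ (H × H)} (hS : Adm A S) {t : ℂ}
    (ht : 0 < t.im) {x l : H × H} (hx : cc A.J x = x) (hl : l ∈ S) (hT : TT t l = TT t x) :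
    (Om A.J l x).im = ‖TT t (imF A.J l)‖ ^ 2 / t.im := by
  have hb : imF A.J l ∈ S := imF_mem hS.conj hl
  have ha : reF A.J l ∈ S := reF_mem hS.conj hl
  obtain ⟨h1, h2⟩ := om_x hS ht hx hl hT hb (cc_imF _ _)
  obtain ⟨-, h3⟩ := om_x hS ht hx hl hT ha (cc_reF _ _)
  have h4 : Om A.J l x = Om A.J (reF A.J l) x + Complex.I * Om A.J (imF A.J l) x := by
    rw [← om_smul_left, ← om_add_left, re_add_im]
  rw [h4, Complex.add_im, h3, zero_add]
  have h5 : (Complex.I * Om A.J (imF A.J l) x).im = (Om A.J (imF A.J l) x).re := by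
    simp [Complex.mul_im]
  rw [h5, h1]
  congr 1
  have h6 := inner_self_eq_norm_sq_to_K (𝕜 := ℂ) (TT t (imF A.J l))
  rw [h6]
  have : ((‖TT t (imF A.J l)‖ : ℂ)) ^ 2 = ((‖TT t (imF A.J l)‖ ^ 2 : ℝ) : ℂ) := by push_cast; rfl
  change (((‖TT t (imF A.J l)‖ : ℂ)) ^ 2).re = _
  rw [this, Complex.ofReal_re]

/-- the fundamental inequality -/
theorem one_le {A : AbsData H} {S : Submodule ℂ (H × H)} (hS : Adm A S) {t : ℂ}
    (ht : 0 < t.im) {x l : H × H} (hx : RX A x) (hl : l ∈ S) (hT : TT t l = TT t x)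
    {ε : H × H} (hε : ε ∈ A.E) : 1 ≤ Qf t (A.v + ε) * (Om A.J l x).im := by
  have hm : A.v + ε ∈ S := S.add_mem hS.v (hS.le hε)
  have h1 : Om A.J (A.v + ε) x = 1 := by rw [om_add_left, hx.v, hx.e ε hε, add_zero]
  have h2 : Om A.J (cc A.J (A.v + ε)) x = 1 := by
    have h3 := om_cc A.J (A.v + ε) x
    rw [hx.real, h1, map_one] at h3
    exact h3
  have h3 : Om A.J (reF A.J (A.v + ε)) x = 1 := by
    rw [reF, om_smul_left, om_add_left, h1, h2]; norm_num
  obtain ⟨h4, -⟩ := om_x hS ht hx.real hl hT (reF_mem hS.conj hm) (cc_reF _ _)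
  rw [h3, Complex.one_re] at h4
  have h5 : (inner ℂ (TT t (reF A.J (A.v + ε))) (TT t (imF A.J l)) : ℂ).re ≤
      ‖TT t (A.v + ε)‖ * ‖TT t (imF A.J l)‖ := by
    refine (Complex.re_le_norm _).trans ((norm_inner_le_norm _ _).trans ?_)
    exact mul_le_mul_of_nonneg_right (norm_reF_le hS hm) (norm_nonneg _)
  have h6 : t.im ≤ ‖TT t (A.v + ε)‖ * ‖TT t (imF A.J l)‖ := by
    have : (inner ℂ (TT t (reF A.J (A.v + ε))) (TT t (imF A.J l)) : ℂ).re = t.im := by
      field_simp at h4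
      exact h4.symm
    linarith
  rw [Qf_eq hS hm ht, om_l_im hS ht hx.real hl hT, div_mul_div_comm, le_div_iff₀ (by positivity),
    one_mul]
  have h7 := mul_self_le_mul_self ht.le h6
  nlinarith

/-- `Om J · x` as a continuous linear functional -/
noncomputable def omL (J : Conj H) (x : H × H) : (H × H) →L[ℂ] ℂ :=
  (innerSL ℂ (J.c x.2)).comp (ContinuousLinearMap.fst ℂ H H) -
    (innerSL ℂ (J.c x.1)).comp (ContinuousLinearMap.snd ℂ H H)

theorem omL_apply (J : Conj H) (x α : H × H) : omL J x α = Om J α x := by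
  simp only [omL, Om]
  rw [c_swap J α.1 x.2, c_swap J α.2 x.1]
  rfl

theorem Qf_nonneg {t : ℂ} (ht : 0 < t.im) (α : H × H) : 0 ≤ Qf t α := by
  unfold Qf; positivity

theorem En_bdd (A : AbsData H) {t : ℂ} (ht : 0 < t.im) :
    BddBelow (Set.range fun ε : A.E => Qf t (A.v + ε.1)) :=
  ⟨0, by rintro _ ⟨ε, rfl⟩; exact Qf_nonneg ht _⟩

theorem En_le (A : AbsData H) {t : ℂ} (ht : 0 < t.im) {ε : H × H} (hε : ε ∈ A.E) :
    En A t ≤ Qf t (A.v + ε) := ciInf_le (En_bdd A ht) (⟨ε, hε⟩ : A.E)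

variable [CompleteSpace H]

theorem image_closed {A : AbsData H} {S : Submodule ℂ (H × H)} (hS : Maximal (Adm A) S) {t : ℂ}
    (ht : 0 < t.im) : IsClosed ((A.E.map ((TT t : (H × H) →L[ℂ] H) : (H × H) →ₗ[ℂ] H) : Submodule ℂ H) : Set H) := by
  have h1 : ((A.E.map ((TT t : (H × H) →L[ℂ] H) : (H × H) →ₗ[ℂ] H) : Submodule ℂ H) : Set H) =
      (TE hS ht) '' {s : S | (s : H × H) ∈ A.E} := by
    ext y
    simp only [Submodule.map_coe, Set.mem_image, SetLike.mem_coe, Set.mem_ofPred_eq]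
    constructor
    · rintro ⟨ε, hε, rfl⟩
      refine ⟨⟨ε, hS.prop.le hε⟩, hε, ?_⟩
      have : (TE hS ht) ⟨ε, hS.prop.le hε⟩ = TS S t ⟨ε, hS.prop.le hε⟩ := by
        rw [← TE_coe hS ht]; rfl
      rw [this]; rfl
    · rintro ⟨s, hs, rfl⟩
      refine ⟨s, hs, ?_⟩
      have : (TE hS ht) s = TS S t s := by rw [← TE_coe hS ht]; rfl
      rw [this]; rfl
  rw [h1]
  refine (TE hS ht).toHomeomorph.isClosedMap _ ?_
  exact A.closed.preimage continuous_subtype_val

/-- existence of the (real) minimiser -/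
theorem exists_min {A : AbsData H} {S : Submodule ℂ (H × H)} (hS : Maximal (Adm A) S) {t : ℂ}
    (ht : 0 < t.im) : ∃ ω ∈ S, cc A.J ω = ω ∧ ω - A.v ∈ A.E ∧
      (∀ ε ∈ A.E, inner ℂ (TT t ω) (TT t ε) = 0) ∧ En A t = ‖TT t ω‖ ^ 2 / t.im ∧
      0 < En A t := by
  set K : Submodule ℂ H := A.E.map ((TT t : (H × H) →L[ℂ] H) : (H × H) →ₗ[ℂ] H) with hK
  have hcomp : IsComplete (K : Set H) := (image_closed hS ht).isComplete
  obtain ⟨w, hwK, hw⟩ := K.exists_norm_eq_iInf_of_complete_subspace hcomp (TT t A.v)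
  have horth := (K.norm_eq_iInf_iff_inner_eq_zero hwK).1 hw
  obtain ⟨ε0, hε0, rfl⟩ := hwK
  have hc : ∀ α ∈ A.E, cc A.J α ∈ A.E := A.conj
  set ω0 : H × H := A.v - ε0 with hω0
  have hω0S : ω0 ∈ S := S.sub_mem hS.prop.v (hS.prop.le hε0)
  have ho : ∀ ε ∈ A.E, inner ℂ (TT t ω0) (TT t ε) = 0 := by
    intro ε hε
    have h := horth (TT t ε) ⟨ε, hε, rfl⟩
    rw [hω0, map_sub]
    exact h
  have hoc : ∀ ε ∈ A.E, inner ℂ (TT t (cc A.J ω0)) (TT t ε) = 0 := by
    intro ε hε
    have h := inner_cc hS.prop (t := t) hω0S (hS.prop.le (hc ε hε))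
    rw [cc_cc, ho _ (hc ε hε), map_zero] at h
    exact h
  set ω : H × H := reF A.J ω0 with hω
  have hωS : ω ∈ S := reF_mem hS.prop.conj hω0S
  have hωv : ω - A.v ∈ A.E := by
    have h1 : ω - A.v = -reF A.J ε0 := by
      rw [hω, hω0, reF, reF, cc_sub, cc_v, ← smul_neg]
      have : A.v = (1 / 2 : ℂ) • (A.v + A.v) := by
        rw [← two_smul ℂ A.v, smul_smul]; norm_num
      nth_rewrite 3 [this]
      rw [← smul_sub]
      congr 1
      abel
    rw [h1]
    exact A.E.neg_mem (reF_mem (S := A.E) hc hε0)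
  have hoω : ∀ ε ∈ A.E, inner ℂ (TT t ω) (TT t ε) = 0 := by
    intro ε hε
    rw [hω, reF, map_smul, map_add, inner_smul_left, inner_add_left, ho ε hε, hoc ε hε]
    simp
  have hmin : ∀ ε ∈ A.E, ‖TT t ω‖ ^ 2 / t.im ≤ Qf t (A.v + ε) := by
    intro ε hε
    have hm : A.v + ε ∈ S := S.add_mem hS.prop.v (hS.prop.le hε)
    rw [Qf_eq hS.prop hm ht]
    have h1 : A.v + ε = ω + (ε - (ω - A.v)) := by abel
    have h2 : ε - (ω - A.v) ∈ A.E := A.E.sub_mem hε hωv
    rw [h1, map_add, norm_add_sq (𝕜 := ℂ), hoω _ h2]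
    have h3 : (0 : ℝ) ≤ ‖TT t (ε - (ω - A.v))‖ ^ 2 := sq_nonneg _
    have h4 : (RCLike.re (0 : ℂ) : ℝ) = 0 := by simp
    rw [h4]
    refine div_le_div_of_nonneg_right ?_ ht.le
    linarith
  have hEn : En A t = ‖TT t ω‖ ^ 2 / t.im := by
    apply le_antisymm
    · have h := En_le A ht hωv
      have h2 : A.v + (ω - A.v) = ω := by abel
      rw [h2, Qf_eq hS.prop hωS ht] at h
      exact h
    · exact le_ciInf (fun ε => hmin ε.1 ε.2)
  refine ⟨ω, hωS, cc_reF _ _, hωv, hoω, hEn, ?_⟩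
  rw [hEn]
  have h1 : TT t ω ≠ 0 := by
    intro h
    have h2 : ω = 0 := TT_inj hS.prop ht hωS S.zero_mem (by rw [h, map_zero])
    rw [h2, zero_sub] at hωv
    exact A.vnot (by simpa using A.E.neg_mem hωv)
  have h2 : 0 < ‖TT t ω‖ := norm_pos_iff.2 h1
  positivity

omit [CompleteSpace H] in
/-- real forms are parametrised by their `TT t` image -/
theorem exists_real (J : Conj H) {t : ℂ} (ht : 0 < t.im) (y : H) :
    ∃ x : H × H, cc J x = x ∧ TT t x = y := by
  have hti : (t.im : ℂ) ≠ 0 := by exact_mod_cast ht.ne'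
  set yr : H := (1 / 2 : ℂ) • (y + J.c y) with hyr
  set yi : H := (-Complex.I / 2) • (y - J.c y) with hyi
  have h1 : J.c yr = yr := by
    rw [hyr, J.smul, J.add, J.invol, add_comm]
    simp [conj2]
  have h2 : J.c yi = yi := by
    have h : (starRingEnd ℂ) (-Complex.I / 2) = -(-Complex.I / 2) := by
      rw [map_div₀, map_neg, Complex.conj_I, conj2]; ring
    rw [hyi, J.smul, c_sub, J.invol, h, neg_smul, ← smul_neg, neg_sub]
  have h3 : yr + Complex.I • yi = y := by
    rw [hyr, hyi, smul_smul]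
    have h : Complex.I * (-Complex.I / 2) = 1 / 2 := by
      rw [mul_div_assoc', mul_neg, Complex.I_mul_I]; norm_num
    rw [h, ← smul_add]
    have h2 : y + J.c y + (y - J.c y) = (2 : ℂ) • y := by rw [two_smul]; abel
    rw [h2, smul_smul]
    norm_num
  clear_value yr yi
  refine ⟨((-(t.im : ℂ)⁻¹) • yi, yr + (t.re : ℂ) • ((-(t.im : ℂ)⁻¹) • yi)), ?_, ?_⟩
  · refine Prod.ext ?_ ?_
    · simp only [cc, J.smul, h2, map_neg, map_inv₀, Complex.conj_ofReal]
    · simp only [cc, J.add, J.smul, h1, h2, map_neg, map_inv₀, Complex.conj_ofReal]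
  · rw [TT_apply]
    simp only
    have h4 : yr + (t.re : ℂ) • ((-(t.im : ℂ)⁻¹) • yi) - t • ((-(t.im : ℂ)⁻¹) • yi) =
        yr + (((t.re : ℂ) - t) * (-(t.im : ℂ)⁻¹)) • yi := by
      rw [smul_smul, smul_smul, sub_mul, sub_smul, add_sub_assoc]
    rw [h4]
    have h5 : (t.re : ℂ) - t = -(t.im : ℂ) * Complex.I := by
      apply Complex.ext <;> simp
    rw [h5]
    have h6 : -(t.im : ℂ) * Complex.I * (-(t.im : ℂ)⁻¹) = Complex.I := by
      field_simp
    rw [h6, h3]

/-- the form `x` attached to the base point `t0` -/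
theorem exists_x {A : AbsData H} {S : Submodule ℂ (H × H)} (hS : Maximal (Adm A) S) {t : ℂ}
    (ht : 0 < t.im) : ∃ x, RX A x ∧ (Om A.J (lamb S x t).1 x).im = 1 / En A t := by
  obtain ⟨ω, hωS, hωr, hωv, hoω, hEn, hpos⟩ := exists_min hS ht
  set E := En A t with hE
  have hE' : (E : ℂ) ≠ 0 := by exact_mod_cast hpos.ne'
  obtain ⟨x, hxr, hxT⟩ := exists_real A.J ht ((Complex.I / E) • TT t ω)
  have hnn : (inner ℂ (TT t ω) (TT t ω) : ℂ) = ((‖TT t ω‖ ^ 2 : ℝ) : ℂ) := by
    rw [inner_self_eq_norm_sq_to_K]; push_cast; rfl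
  have hωx : Om A.J ω x = 1 := by
    obtain ⟨h1, h2⟩ := om_real A.J (t := t) hωr hxr
    rw [hxT, inner_smul_right, hnn] at h1
    have h3 : (Complex.I / (E : ℂ) * ((‖TT t ω‖ ^ 2 : ℝ) : ℂ)).im = ‖TT t ω‖ ^ 2 / E := by
      have : Complex.I / (E : ℂ) * ((‖TT t ω‖ ^ 2 : ℝ) : ℂ) =
          ((‖TT t ω‖ ^ 2 / E : ℝ) : ℂ) * Complex.I := by push_cast; ring
      rw [this, Complex.mul_im]
      simp only [Complex.ofReal_re, Complex.ofReal_im, Complex.I_im, Complex.I_re]
      ring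
    rw [h3] at h1
    have h4 : ‖TT t ω‖ ^ 2 = E * t.im := by
      rw [hEn]; field_simp
    rw [h4, mul_div_cancel_left₀ _ hpos.ne'] at h1
    have h5 : (Om A.J ω x).re = 1 := by
      have := mul_left_cancel₀ ht.ne' (show t.im * (Om A.J ω x).re = t.im * 1 by
        rw [mul_one]; exact h1.symm)
      exact this
    exact Complex.ext (by simpa using h5) (by simpa using h2)
  have her : ∀ ε ∈ A.E, cc A.J ε = ε → Om A.J ε x = 0 := by
    intro ε hε hr
    obtain ⟨h1, h2⟩ := om_real A.J (t := t) hr hxr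
    have h3 : inner ℂ (TT t ε) (TT t ω) = (0 : ℂ) := by
      rw [← inner_conj_symm, hoω ε hε, map_zero]
    rw [hxT, inner_smul_right, h3, mul_zero, Complex.zero_im] at h1
    have h4 : (Om A.J ε x).re = 0 := by
      rcases mul_eq_zero.1 h1.symm with h | h
      · exact absurd h ht.ne'
      · exact h
    exact Complex.ext (by simpa using h4) (by simpa using h2)
  have hc : ∀ α ∈ A.E, cc A.J α ∈ A.E := A.conj
  have he : ∀ ε ∈ A.E, Om A.J ε x = 0 := by
    intro ε hε
    rw [← re_add_im A.J ε, om_add_left, om_smul_left, her _ (reF_mem hc hε) (cc_reF _ _),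
      her _ (imF_mem hc hε) (cc_imF _ _)]
    simp
  refine ⟨x, ⟨hxr, ?_, he⟩, ?_⟩
  · have h1 : A.v = ω - (ω - A.v) := by abel
    rw [h1, om_sub_left, hωx, he _ hωv, sub_zero]
  · have h1 : (lamb S x t).1 = (Complex.I / E) • ω := by
      refine TT_inj hS.prop ht (lamb S x t).2 (S.smul_mem _ hωS) ?_
      rw [TT_lamb hS ht, hxT, map_smul]
    rw [h1, om_smul_left, hωx, mul_one]
    have : Complex.I / (E : ℂ) = ((1 / E : ℝ) : ℂ) * Complex.I := by push_cast; ring
    rw [this]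
    simp

theorem om_lamb_diff {A : AbsData H} {S : Submodule ℂ (H × H)} (hS : Maximal (Adm A) S)
    (x : H × H) : DifferentiableOn ℂ (fun t => Om A.J (lamb S x t).1 x) UH := by
  have h1 := lamb_diff hS x
  have h2 : (fun t => Om A.J (lamb S x t).1 x) =
      fun t => ((omL A.J x).comp S.subtypeL) (lamb S x t) := by
    funext t
    rw [← omL_apply]
    rfl
  rw [h2]
  exact ((omL A.J x).comp S.subtypeL).differentiable.comp_differentiableOn h1

theorem inv_En_le {A : AbsData H} {S : Submodule ℂ (H × H)} (hS : Maximal (Adm A) S) {t : ℂ}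
    (ht : 0 < t.im) {x : H × H} (hx : RX A x) :
    1 / En A t ≤ (Om A.J (lamb S x t).1 x).im := by
  obtain ⟨-, -, -, -, -, -, hpos⟩ := exists_min hS ht
  have h := fun (ε : A.E) => one_le hS.prop ht hx (lamb S x t).2 (TT_lamb hS ht x) ε.2
  have hQ : ∀ ε : A.E, 0 < Qf t (A.v + ε.1) := fun ε => hpos.trans_le (En_le A ht ε.2)
  have h0 : 0 < (Om A.J (lamb S x t).1 x).im := by
    have h1 := h 0
    by_contra hneg
    have := mul_nonpos_of_nonneg_of_nonpos (hQ 0).le (not_lt.1 hneg)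
    linarith
  have h2 : 1 / (Om A.J (lamb S x t).1 x).im ≤ En A t := by
    refine le_ciInf (fun ε => ?_)
    rw [div_le_iff₀ h0]
    exact h ε
  rw [div_le_iff₀ hpos]
  rw [div_le_iff₀ h0] at h2
  linarith

theorem en_cont (A : AbsData H) : ContinuousOn (En A) UH := by
  obtain ⟨S, hS⟩ := exists_max A
  intro t0 ht0
  obtain ⟨ω, hωS, hωr, hωv, hoω, hEn, hpos⟩ := exists_min hS ht0
  obtain ⟨x, hx, hx0⟩ := exists_x hS ht0
  have hω' : A.v + (ω - A.v) = ω := by abel
  have h1 : Tendsto (fun t => Qf t ω) (𝓝[UH] t0) (𝓝 (En A t0)) := by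
    have h2 : Qf t0 ω = En A t0 := by rw [Qf_eq hS.prop hωS ht0, hEn]
    rw [← h2]
    have h3 : ContinuousAt (fun t : ℂ => Qf t ω) t0 := by
      unfold Qf
      have hne : t0.im ≠ 0 := (show 0 < t0.im from ht0).ne'
      fun_prop (disch := exact hne)
    exact h3.continuousWithinAt
  have h2 : Tendsto (fun t => 1 / (Om A.J (lamb S x t).1 x).im) (𝓝[UH] t0) (𝓝 (En A t0)) := by
    have h3 : ContinuousWithinAt (fun t => Om A.J (lamb S x t).1 x) UH t0 :=
      (om_lamb_diff hS x).continuousOn t0 ht0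
    have h4 : Tendsto (fun t => (Om A.J (lamb S x t).1 x).im) (𝓝[UH] t0) (𝓝 (1 / En A t0)) := by
      rw [← hx0]
      exact (Complex.continuous_im.tendsto _).comp h3
    have h5 := h4.inv₀ (by positivity)
    simpa using h5
  refine tendsto_of_tendsto_of_tendsto_of_le_of_le' h2 h1 ?_ ?_
  · filter_upwards [self_mem_nhdsWithin] with t ht
    obtain ⟨-, -, -, -, -, -, hpos'⟩ := exists_min hS ht
    have h3 := inv_En_le hS ht hx
    have h4 : 0 < 1 / En A t := by positivity
    rw [div_le_iff₀ (h4.trans_le h3)]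
    rw [div_le_iff₀ hpos'] at h3
    linarith
  · filter_upwards [self_mem_nhdsWithin] with t ht
    have := En_le A ht hωv
    rwa [hω'] at this

/-- **ABSA1** -/
theorem st_ABSA1 : ST_ABSA1.{u} := by
  intro H _ _ _ A
  obtain ⟨S, hS⟩ := exists_max A
  refine ⟨fun t ht => ?_, en_cont A, fun t0 ht0 => ?_⟩
  · obtain ⟨-, -, -, -, -, -, hpos⟩ := exists_min hS ht
    exact hpos
  · obtain ⟨x, hx, hx0⟩ := exists_x hS ht0
    exact ⟨fun t => Om A.J (lamb S x t).1 x, om_lamb_diff hS x,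
      fun t ht => inv_En_le hS ht hx, hx0⟩

end main

end Pool.Agent.Helper37.Dil
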