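import Pool.Agent.Helper37.Dil.AbsA

/-! # Abstract Step A, second part -/

open Topology Set Filter Metric

namespace Pool.Agent.Helper37.Dil

universe u

open Pool.Agent.Helper73.Dil

variable {H : Type*} [NormedAddCommGroup H] [InnerProductSpace ℂ H]

theorem UH_open : IsOpen UH := isOpen_lt continuous_const Complex.continuous_im

theorem UH_convex : Convex ℝ UH := by
  have : UH = Complex.imCLM ⁻¹' Set.Ioi (0 : ℝ) := by
    ext z
    simp [UH]
  rw [this]
  exact (convex_Ioi 0).is_linear_preimage Complex.imCLM.toLinearMap.isLinear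

/-- a holomorphic function whose imaginary part attains its minimum is constant -/
theorem const_of_min {h : ℂ → ℂ} (hd : DifferentiableOn ℂ h UH) {t0 : ℂ} (ht0 : t0 ∈ UH)
    (hm : ∀ t ∈ UH, (h t0).im ≤ (h t).im) : ∀ t ∈ UH, h t = h t0 := by
  have hpre : IsPreconnected UH := UH_convex.isPreconnected
  have hd' : DifferentiableOn ℂ (fun t => Complex.exp (Complex.I * h t)) UH :=
    (hd.const_mul Complex.I).cexp
  have hmax : IsMaxOn (norm ∘ fun t => Complex.exp (Complex.I * h t)) UH t0 := by
    intro t ht
    simp only [Function.comp_apply, Complex.norm_exp, Set.mem_ofPred_eq]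
    refine Real.exp_le_exp.2 ?_
    simp only [Complex.mul_re, Complex.I_re, Complex.I_im]
    have := hm t ht
    linarith
  have h1 := Complex.eqOn_of_isPreconnected_of_isMaxOn_norm hpre UH_open hd' ht0 hmax
  -- so the imaginary part is constant
  have him : ∀ t ∈ UH, (h t).im = (h t0).im := by
    intro t ht
    have h2 : Complex.exp (Complex.I * h t) = Complex.exp (Complex.I * h t0) := h1 ht
    have h3 := congrArg norm h2
    rw [Complex.norm_exp, Complex.norm_exp] at h3
    have h4 := Real.exp_injective h3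
    simp only [Complex.mul_re, Complex.I_re, Complex.I_im] at h4
    linarith
  -- derivative zero
  have hder : ∀ t ∈ UH, deriv h t = 0 := by
    intro t ht
    have h5 : HasDerivAt h (deriv h t) t := ((hd t ht).differentiableAt (UH_open.mem_nhds ht)).hasDerivAt
    have h6 : (fun t => Complex.exp (Complex.I * h t)) =ᶠ[𝓝 t]
        fun _ => Complex.exp (Complex.I * h t0) := by
      filter_upwards [UH_open.mem_nhds ht] with s hs
      exact h1 hs
    have h7 : HasDerivAt (fun t => Complex.exp (Complex.I * h t))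
        (Complex.exp (Complex.I * h t) * (Complex.I * deriv h t)) t :=
      (h5.const_mul Complex.I).cexp
    have h8 : HasDerivAt (fun t => Complex.exp (Complex.I * h t)) 0 t :=
      (hasDerivAt_const t _).congr_of_eventuallyEq h6
    have h9 := h7.unique h8
    have h10 : Complex.exp (Complex.I * h t) ≠ 0 := Complex.exp_ne_zero _
    have h11 : Complex.I * deriv h t = 0 := by
      rcases mul_eq_zero.1 h9 with h | h
      · exact absurd h h10
      · exact h
    rcases mul_eq_zero.1 h11 with h | h
    · exact absurd h Complex.I_ne_zero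
    · exact h
  intro t ht
  exact UH_open.is_const_of_deriv_eq_zero hpre hd hder ht ht0

/-- a curve in `S` whose class modulo `E` has constant imaginary part has derivative in `E` -/
theorem deriv_mem (A : AbsData H) {l : ℂ → H × H} {t : ℂ} (ht : t ∈ UH) {l' : H × H}
    (hl : HasDerivAt l l' t) (hb : ∀ s ∈ UH, imF A.J (l s) - imF A.J (l t) ∈ A.E) :
    l' ∈ A.E := by
  -- real-linear continuous map `imF`
  let cR : H →L[ℝ] H :=
    (LinearMap.mkContinuous
      { toFun := A.J.c
        map_add' := A.J.add
        map_smul' := fun r x => by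
          have := A.J.smul (r : ℂ) x
          rw [Complex.conj_ofReal] at this
          simpa using this } 1 (fun x => by
            rw [one_mul]
            exact (c_norm A.J x).le))
  have hcR : ∀ x, cR x = A.J.c x := fun x => rfl
  let ccR : (H × H) →L[ℝ] (H × H) := cR.prodMap cR
  have hccR : ∀ x, ccR x = cc A.J x := fun x => rfl
  -- derivative of imF along directions
  have key : ∀ d : ℂ, imF A.J (d • l') ∈ A.E := by
    intro d
    have hline : HasDerivAt (fun s : ℝ => t + (s : ℂ) * d) d 0 := by
      have h1 : HasDerivAt (fun s : ℝ => (s : ℂ)) 1 0 := Complex.ofRealCLM.hasDerivAt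
      simpa using (h1.mul_const d).const_add t
    have h0 : (fun s : ℝ => t + (s : ℂ) * d) 0 = t := by simp
    have hcomp : HasDerivAt (fun s : ℝ => l (t + (s : ℂ) * d)) (d • l') 0 := by
      have hl' : HasDerivAt l l' ((fun s : ℝ => t + (s : ℂ) * d) 0) := by rw [h0]; exact hl
      exact hl'.scomp (0 : ℝ) hline
    have hcc : HasDerivAt (fun s : ℝ => cc A.J (l (t + (s : ℂ) * d))) (cc A.J (d • l')) 0 :=
      (ccR.hasFDerivAt.comp_hasDerivAt (0 : ℝ) hcomp)
    have him : HasDerivAt (fun s : ℝ => imF A.J (l (t + (s : ℂ) * d))) (imF A.J (d • l')) 0 :=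
      (hcomp.sub hcc).const_smul (-Complex.I / 2)
    have h2 : HasDerivAt (fun s : ℝ => imF A.J (l (t + (s : ℂ) * d)) - imF A.J (l t))
        (imF A.J (d • l')) 0 := him.sub_const _
    have h3 := h2.tendsto_slope_zero
    have hopen : ∀ᶠ s : ℝ in 𝓝 0, t + (s : ℂ) * d ∈ UH := by
      have hc : ContinuousAt (fun s : ℝ => t + (s : ℂ) * d) 0 := hline.continuousAt
      exact hc.eventually_mem (by
        rw [show t + (((0 : ℝ)) : ℂ) * d = t by simp]
        exact UH_open.mem_nhds ht)
    refine A.closed.mem_of_tendsto h3 ?_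
    filter_upwards [nhdsWithin_le_nhds hopen] with s hs
    have h4 := hb _ hs
    have h5 : s⁻¹ • ((fun s : ℝ => imF A.J (l (t + (s : ℂ) * d)) - imF A.J (l t)) (0 + s) -
        (fun s : ℝ => imF A.J (l (t + (s : ℂ) * d)) - imF A.J (l t)) 0) =
        ((s⁻¹ : ℝ) : ℂ) • (imF A.J (l (t + (s : ℂ) * d)) - imF A.J (l t)) := by
      simp only [zero_add, Complex.ofReal_zero, zero_mul, add_zero, sub_self, sub_zero]
      rw [Complex.coe_smul]
    rw [h5]
    exact A.E.smul_mem _ h4
  have h1 := key 1
  have h2 := key Complex.I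
  rw [one_smul] at h1
  have h3 : imF A.J (Complex.I • l') = reF A.J l' := by
    rw [imF, reF, cc_smul, Complex.conj_I, neg_smul, sub_neg_eq_add, ← smul_add, smul_smul]
    congr 1
    rw [div_mul_eq_mul_div, neg_mul, Complex.I_mul_I, neg_neg]
  rw [h3] at h2
  rw [← re_add_im A.J l']
  exact A.E.add_mem h2 (A.E.smul_mem _ h1)

variable [CompleteSpace H]

/-- **ABSA2** -/
theorem st_ABSA2 : ST_ABSA2.{u} := by
  intro H _ _ _ A E0 hE0
  obtain ⟨S, hS⟩ := exists_max A
  have hI : Complex.I ∈ UH := by simp [UH]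
  obtain ⟨x, hx, hx0⟩ := exists_x hS hI
  have hd := om_lamb_diff hS x
  have hpos : 0 < E0 := by
    obtain ⟨-, -, -, -, -, -, hpos⟩ := exists_min hS hI
    rwa [hE0 _ hI] at hpos
  have hconst := const_of_min hd hI (fun t ht => by
    rw [hx0, hE0 _ hI]
    have := inv_En_le hS ht hx
    rwa [hE0 t ht] at this)
  -- the imaginary part equals `1/E0`
  have him : ∀ t ∈ UH, (Om A.J (lamb S x t).1 x).im = 1 / E0 := by
    intro t ht
    rw [show Om A.J (lamb S x t).1 x = Om A.J (lamb S x Complex.I).1 x from hconst t ht, hx0,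
      hE0 _ hI]
  -- `b_t = ω_t / E0`
  have hb : ∀ t ∈ UH, ∃ ω ∈ S, cc A.J ω = ω ∧ ω - A.v ∈ A.E ∧ ‖TT t ω‖ ^ 2 = E0 * t.im ∧
      (E0 : ℂ) • imF A.J (lamb S x t).1 = ω := by
    intro t ht
    have hti : 0 < t.im := ht
    obtain ⟨ω, hωS, hωr, hωv, hoω, hEn, -⟩ := exists_min hS ht
    have h1 : ‖TT t ω‖ ^ 2 = E0 * t.im := by
      rw [hE0 t ht] at hEn
      rw [hEn]; field_simp
    refine ⟨ω, hωS, hωr, hωv, h1, ?_⟩
    set l := (lamb S x t).1 with hl
    have hlS : l ∈ S := (lamb S x t).2
    have hlT : TT t l = TT t x := TT_lamb hS ht x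
    have h2 := om_l_im hS.prop ht hx.real hlS hlT
    rw [him t ht] at h2
    have h3 : ‖TT t (imF A.J l)‖ ^ 2 = t.im / E0 := by
      field_simp at h2
      field_simp
      linarith
    obtain ⟨h4, -⟩ := om_x hS.prop ht hx.real hlS hlT hωS hωr
    have h5 : Om A.J ω x = 1 := by
      have h6 : ω = A.v + (ω - A.v) := by abel
      rw [h6, om_add_left, hx.v, hx.e _ hωv, add_zero]
    rw [h5, Complex.one_re] at h4
    have h6 : (inner ℂ (TT t ω) (TT t (imF A.J l)) : ℂ).re = t.im := by
      field_simp at h4
      exact h4.symm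
    refine TT_inj hS.prop ht (S.smul_mem _ (imF_mem hS.prop.conj hlS)) hωS ?_
    rw [map_smul, ← sub_eq_zero, ← norm_eq_zero, ← sq_eq_zero_iff, norm_sub_sq (𝕜 := ℂ),
      norm_smul, mul_pow, h3, h1, inner_smul_left, Complex.conj_ofReal, ← inner_conj_symm]
    have h7 : (RCLike.re ((E0 : ℂ) * (starRingEnd ℂ) (inner ℂ (TT t ω) (TT t (imF A.J l)))) : ℝ) =
        E0 * t.im := by
      change ((E0 : ℂ) * (starRingEnd ℂ) (inner ℂ (TT t ω) (TT t (imF A.J l)))).re = _
      rw [Complex.re_ofReal_mul, Complex.conj_re, h6]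
    rw [h7, Complex.norm_real, Real.norm_eq_abs, abs_of_pos hpos]
    field_simp
    ring
  -- the function
  refine ⟨fun t => (Complex.I * E0) • (x.1 - (lamb S x t).1.1), ?_, ?_⟩
  · have h1 := lamb_diff hS x
    have h2 : DifferentiableOn ℂ (fun t => ((lamb S x t : S) : H × H).1) UH :=
      (((ContinuousLinearMap.fst ℂ H H).comp S.subtypeL).differentiable).comp_differentiableOn h1
    exact (h2.const_sub x.1).const_smul (Complex.I * (E0 : ℂ))
  · have hθ : ∀ t ∈ UH, (((Complex.I * E0) • (x.1 - (lamb S x t).1.1),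
        t • ((Complex.I * E0) • (x.1 - (lamb S x t).1.1))) : H × H) =
        (Complex.I * E0) • (x - (lamb S x t).1) := by
      intro t ht
      have h1 := TT_lamb hS ht x
      rw [TT_apply, TT_apply] at h1
      refine Prod.ext rfl ?_
      simp only [Prod.smul_snd, Prod.snd_sub]
      rw [smul_comm]
      congr 1
      rw [smul_sub]
      have h2 : x.2 - (lamb S x t).1.2 = t • x.1 - t • (lamb S x t).1.1 := by
        have h3 : x.2 = (lamb S x t).1.2 - t • (lamb S x t).1.1 + t • x.1 := by
          rw [h1]; abel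
        rw [h3]; abel
      exact h2.symm
    have hre : ∀ t ∈ UH, reF A.J ((Complex.I * E0) • (x - (lamb S x t).1)) =
        (E0 : ℂ) • imF A.J (lamb S x t).1 := by
      intro t ht
      rw [reF, imF, cc_smul, cc_sub, hx.real, map_mul, Complex.conj_I, Complex.conj_ofReal,
        smul_smul, neg_mul, neg_smul, ← sub_eq_add_neg, ← smul_sub, smul_smul]
      have h1 : x - (lamb S x t).1 - (x - cc A.J (lamb S x t).1) =
          -((lamb S x t).1 - cc A.J (lamb S x t).1) := by abel
      rw [h1, smul_neg, ← neg_smul]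
      congr 1
      ring
    intro t ht
    have hti : 0 < t.im := ht
    obtain ⟨ω, hωS, hωr, hωv, hn, hω⟩ := hb t ht
    refine ⟨⟨?_, ?_⟩, ?_, ?_⟩
    · intro ε hε
      rw [hθ t ht, om_smul_left, om_sub_left, hS.prop.iso _ (lamb S x t).2 ε (hS.prop.le hε),
        om_symm, hx.e ε hε]
      simp
    · have h1 := hre t ht
      rw [← hθ t ht, hω] at h1
      have h2 : (1 / 2 : ℂ) • ((((Complex.I * E0) • (x.1 - (lamb S x t).1.1) +
          A.J.c ((Complex.I * E0) • (x.1 - (lamb S x t).1.1))),
          (t • ((Complex.I * E0) • (x.1 - (lamb S x t).1.1)) +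
          A.J.c (t • ((Complex.I * E0) • (x.1 - (lamb S x t).1.1))))) : H × H) = ω := h1
      rw [h2]
      exact hωv
    · set c := (Complex.I * E0) • (x.1 - (lamb S x t).1.1) with hc
      have h1 : ω = reF A.J ((c, t • c) : H × H) := by rw [hθ t ht, hre t ht, hω]
      have h2 : TT t ω = (-(t.im : ℂ) * Complex.I) • A.J.c c := by
        rw [h1, TT_apply, reF]
        simp only [cc, Prod.smul_snd, Prod.smul_fst, Prod.snd_add, Prod.fst_add, A.J.smul,
          smul_add, smul_smul]
        have e1 : (starRingEnd ℂ) t - t = -2 * (t.im : ℂ) * Complex.I := by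
          apply Complex.ext <;> simp
          ring
        have e2 : (1 / 2 * t) • c + (1 / 2 * (starRingEnd ℂ) t) • A.J.c c -
            ((t * (1 / 2)) • c + (t * (1 / 2)) • A.J.c c) =
            ((1 / 2 * (starRingEnd ℂ) t) - t * (1 / 2)) • A.J.c c := by
          rw [sub_smul, mul_comm (1 / 2 : ℂ) t]
          abel
        rw [e2]
        congr 1
        linear_combination (1 / 2 : ℂ) * e1
      have h3 : ‖TT t ω‖ ^ 2 = t.im ^ 2 * ‖c‖ ^ 2 := by
        rw [h2, norm_smul, mul_pow, c_norm]
        simp
      rw [hn] at h3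
      have h4 : t.im * (t.im * ‖c‖ ^ 2) = t.im * E0 := by rw [← mul_assoc]; linarith
      exact mul_left_cancel₀ hti.ne' h4
    · -- the difference lies in `E`
      intro t' ht'
      have hq : ∀ s ∈ UH, ∀ s' ∈ UH, (lamb S x s).1 - (lamb S x s').1 ∈ A.E := by
        have : IsClosed (A.E : Set (H × H)) := A.closed
        have hcl : IsClosed ((A.E : Submodule ℂ (H × H)) : Set (H × H)) := A.closed
        let π : (H × H) →L[ℂ] ((H × H) ⧸ A.E) := A.E.mkQL
        have hd1 : DifferentiableOn ℂ (fun s => ((lamb S x s : S) : H × H)) UH :=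
          (S.subtypeL.differentiable).comp_differentiableOn (lamb_diff hS x)
        have hd2 : DifferentiableOn ℂ (fun s => π ((lamb S x s : S) : H × H)) UH :=
          π.differentiable.comp_differentiableOn hd1
        have hd3 : ∀ s ∈ UH, deriv (fun s => π ((lamb S x s : S) : H × H)) s = 0 := by
          intro s hs
          have h1 : HasDerivAt (fun s => ((lamb S x s : S) : H × H))
              (deriv (fun s => ((lamb S x s : S) : H × H)) s) s :=
            ((hd1 s hs).differentiableAt (UH_open.mem_nhds hs)).hasDerivAt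
          have h2 : deriv (fun s => ((lamb S x s : S) : H × H)) s ∈ A.E := by
            refine deriv_mem A hs h1 (fun r hr => ?_)
            obtain ⟨ω1, -, -, h3, -, h4⟩ := hb r hr
            obtain ⟨ω2, -, -, h5, -, h6⟩ := hb s hs
            have hE0' : (E0 : ℂ) ≠ 0 := by exact_mod_cast hpos.ne'
            have h7 : (E0 : ℂ) • (imF A.J (lamb S x r).1 - imF A.J (lamb S x s).1) ∈ A.E := by
              rw [smul_sub, h4, h6]
              have := A.E.sub_mem h3 h5
              have h8 : ω1 - A.v - (ω2 - A.v) = ω1 - ω2 := by abel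
              rwa [h8] at this
            have h9 := A.E.smul_mem ((E0 : ℂ)⁻¹) h7
            rwa [smul_smul, inv_mul_cancel₀ hE0', one_smul] at h9
          have h3 : HasDerivAt (fun s => π ((lamb S x s : S) : H × H))
              (π (deriv (fun s => ((lamb S x s : S) : H × H)) s)) s :=
            π.hasFDerivAt.comp_hasDerivAt s h1
          rw [h3.deriv]
          exact (Submodule.Quotient.mk_eq_zero _).2 h2
        intro s hs s' hs'
        have h4 := UH_open.is_const_of_deriv_eq_zero UH_convex.isPreconnected hd2 hd3 hs hs'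
        exact (Submodule.Quotient.eq _).1 h4
      have h1 : ((((Complex.I * E0) • (x.1 - (lamb S x t).1.1)) -
          ((Complex.I * E0) • (x.1 - (lamb S x t').1.1)),
          t • ((Complex.I * E0) • (x.1 - (lamb S x t).1.1)) -
          t' • ((Complex.I * E0) • (x.1 - (lamb S x t').1.1))) : H × H) =
          (Complex.I * E0) • ((lamb S x t').1 - (lamb S x t).1) := by
        have h2 := congrArg₂ (fun a b : H × H => a - b) (hθ t ht) (hθ t' ht')
        have h3 : (Complex.I * (E0 : ℂ)) • (x - (lamb S x t).1) -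
            (Complex.I * (E0 : ℂ)) • (x - (lamb S x t').1) =
            (Complex.I * E0) • ((lamb S x t').1 - (lamb S x t).1) := by
          rw [← smul_sub]; congr 1; abel
        rw [h3] at h2
        exact h2
      rw [h1]
      exact A.E.smul_mem _ (hq t' ht' t ht)

end Pool.Agent.Helper37.Dil
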