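import Pool.Agent.Helper73.Dil.Rat

open Topology Set Filter MeasureTheory Metric

namespace Pool.Agent.Helper73.Dil

universe u

open DilationSurface

section
variable {X : Type u} [TopologicalSpace X]

/-- the part of the surface where the reference chart is the `n`-th ball -/
def measPart {D : DilationSurface X} (R : D.Ref) (n : ℕ) : Set X :=
  {x | x ∈ (R.B n).source ∧ R.idx x = n}

theorem meas_idx_le {D : DilationSurface X} (R : D.Ref) {n : ℕ} {x : X}
    (hx : x ∈ (R.B n).source) : R.idx x ≤ n := Nat.sInf_le hx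

theorem meas_idx_mem {D : DilationSurface X} (R : D.Ref) {n : ℕ} {x : X}
    (hx : x ∈ (R.B n).source) : x ∈ (R.B (R.idx x)).source :=
  Nat.sInf_mem (s := {n | x ∈ (R.B n).source}) ⟨n, hx⟩

theorem meas_mem_part {D : DilationSurface X} (R : D.Ref) {x : X} (hx : x ∉ D.cone) :
    x ∈ measPart R (R.idx x) := by
  obtain ⟨n, hn⟩ := R.cov x hx
  exact ⟨meas_idx_mem R hn, rfl⟩

theorem meas_part_eq {D : DilationSurface X} (R : D.Ref) (n : ℕ) :
    measPart R n = (R.B n).source \ ⋃ m : Fin n, (R.B m).source := by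
  ext x
  constructor
  · rintro ⟨h1, h2⟩
    refine ⟨h1, fun h => ?_⟩
    obtain ⟨m, hm⟩ := mem_iUnion.1 h
    have := meas_idx_le R hm
    have := m.2
    omega
  · rintro ⟨h1, h2⟩
    refine ⟨h1, le_antisymm (meas_idx_le R h1) ?_⟩
    by_contra hlt
    exact h2 (mem_iUnion.2 ⟨⟨R.idx x, by omega⟩, meas_idx_mem R h1⟩)

theorem meas_idx_preimage {D : DilationSurface X} (R : D.Ref) (n : ℕ) :
    R.idx ⁻¹' {n} = measPart R n ∪ {x | n = 0 ∧ x ∈ (⋃ m, (R.B m).source)ᶜ} := by
  ext x
  constructor
  · intro hx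
    by_cases h : x ∈ ⋃ m, (R.B m).source
    · obtain ⟨m, hm⟩ := mem_iUnion.1 h
      have h1 := meas_idx_mem R hm
      have hx' : R.idx x = n := hx
      rw [hx'] at h1
      exact Or.inl ⟨h1, hx'⟩
    · refine Or.inr ⟨?_, h⟩
      have hx' : R.idx x = n := hx
      rw [← hx', Ref.idx]
      have : {n | x ∈ (R.B n).source} = ∅ := by
        ext m
        simp only [mem_ofPred_eq, mem_empty_iff_false, iff_false]
        exact fun hm => h (mem_iUnion.2 ⟨m, hm⟩)
      rw [this, Nat.sInf_empty]
  · rintro (h | ⟨h1, h2⟩)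
    · exact h.2
    · have : {n | x ∈ (R.B n).source} = ∅ := by
        ext m
        simp only [mem_ofPred_eq, mem_empty_iff_false, iff_false]
        exact fun hm => h2 (mem_iUnion.2 ⟨m, hm⟩)
      change R.idx x = n
      rw [Ref.idx, this, Nat.sInf_empty, h1]

end

section
variable {X : Type u} [TopologicalSpace X] [MeasurableSpace X] [BorelSpace X]

theorem meas_symm_aemeasurable (e : OpenPartialHomeomorph X ℂ) :
    AEMeasurable e.symm (volume.restrict e.target) :=
  e.continuousOn_symm.aemeasurable e.open_target.measurableSet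

theorem meas_setLIntegral_cmeas (e : OpenPartialHomeomorph X ℂ) {S : Set X}
    (hS : MeasurableSet S) {F : X → ENNReal} (hF : Measurable F) :
    ∫⁻ x in S, F x ∂(cmeas e) = ∫⁻ w in e.target ∩ e.symm ⁻¹' S, F (e.symm w) := by
  rw [cmeas, Measure.restrict_map_of_aemeasurable (meas_symm_aemeasurable e) hS,
    lintegral_map' hF.aemeasurable
      ((meas_symm_aemeasurable e).mono_measure Measure.restrict_le_self),
    Measure.restrict_restrict' e.open_target.measurableSet, inter_comm]

theorem meas_cmeas_apply (e : OpenPartialHomeomorph X ℂ) {S : Set X}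
    (hS : MeasurableSet S) : cmeas e S = volume (e.target ∩ e.symm ⁻¹' S) := by
  have h := meas_setLIntegral_cmeas e hS (F := fun _ => 1) measurable_const
  simpa using h

theorem meas_preimage (e : OpenPartialHomeomorph X ℂ) {S : Set X}
    (hS : MeasurableSet S) : MeasurableSet (e.target ∩ e.symm ⁻¹' S) := by
  have h1 : Measurable (e.target.domRestrict e.symm) :=
    (continuousOn_iff_continuous_domRestrict.1 e.continuousOn_symm).measurable
  have h2 := h1 hS
  have h3 : e.target ∩ e.symm ⁻¹' S = Subtype.val '' (e.target.domRestrict e.symm ⁻¹' S) := by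
    ext z
    simp only [mem_inter_iff, mem_preimage, mem_image, Subtype.exists,
      exists_and_right, exists_eq_right]
    constructor
    · rintro ⟨h, h'⟩; exact ⟨h, h'⟩
    · rintro ⟨h, h'⟩; exact ⟨h, h'⟩
  rw [h3]
  exact MeasurableEmbedding.subtype_coe e.open_target.measurableSet |>.measurableSet_image' h2

theorem meas_measurableSet_part {D : DilationSurface X} (R : D.Ref) (n : ℕ) :
    MeasurableSet (measPart R n) := by
  rw [meas_part_eq]
  exact (R.B n).open_source.measurableSet.diff
    (isOpen_iUnion fun m : Fin n => (R.B m).open_source).measurableSet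

theorem meas_measurable_idx {D : DilationSurface X} (R : D.Ref) : Measurable R.idx := by
  refine measurable_to_countable' fun n => ?_
  rw [meas_idx_preimage]
  refine (meas_measurableSet_part R n).union ?_
  have h : MeasurableSet ((⋃ m, (R.B m).source)ᶜ) :=
    (isOpen_iUnion fun m => (R.B m).open_source).measurableSet.compl
  exact (MeasurableSet.const (n = 0)).inter h

theorem meas_mu_part {D : DilationSurface X} (R : D.Ref) (n : ℕ) {S : Set X}
    (hS : MeasurableSet S) : R.mu (S ∩ measPart R n) = cmeas (R.B n) (S ∩ measPart R n) := by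
  have hm := hS.inter (meas_measurableSet_part R n)
  rw [Ref.mu, Measure.sum_apply _ hm, tsum_eq_single n]
  · rw [Measure.restrict_apply hm]
    congr 1
    ext x
    exact ⟨fun h => h.1, fun h => ⟨h, h.2⟩⟩
  · intro m hmn
    rw [Measure.restrict_apply hm]
    have : S ∩ measPart R n ∩ {x | x ∈ (R.B m).source ∧ R.idx x = m} = ∅ := by
      ext x
      simp only [mem_inter_iff, mem_ofPred_eq, mem_empty_iff_false, iff_false, not_and]
      rintro ⟨-, h2⟩ - h3
      exact hmn (h3.symm.trans h2.2)
    rw [this, measure_empty]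

theorem meas_mu_part_lt {D : DilationSurface X} (R : D.Ref) (n : ℕ) :
    R.mu (measPart R n) < ⊤ := by
  have h := meas_mu_part R n MeasurableSet.univ
  rw [univ_inter] at h
  rw [h, meas_cmeas_apply _ (meas_measurableSet_part R n)]
  refine lt_of_le_of_lt (measure_mono inter_subset_left) ?_
  rw [(R.ball n).2, B1]
  exact measure_ball_lt_top

theorem meas_mu_compl {D : DilationSurface X} (R : D.Ref) {S : Set X} (hS : MeasurableSet S)
    (h : ∀ n, ∀ x ∈ (R.B n).source, x ∉ S) : R.mu S = 0 := by
  rw [Ref.mu, Measure.sum_apply _ hS, ENNReal.tsum_eq_zero]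
  intro n
  rw [Measure.restrict_apply hS]
  have : S ∩ {x | x ∈ (R.B n).source ∧ R.idx x = n} = ∅ := by
    ext x
    simp only [mem_inter_iff, mem_ofPred_eq, mem_empty_iff_false, iff_false, not_and]
    intro h1 h2
    exact absurd h1 (h n x h2)
  rw [this, measure_empty]

theorem meas_sigmaFinite {D : DilationSurface X} (R : D.Ref) : SigmaFinite R.mu := by
  refine Measure.FiniteSpanningSetsIn.sigmaFinite (C := univ) ?_
  refine ⟨fun n => Nat.casesOn n ((⋃ m, (R.B m).source)ᶜ) (measPart R), fun n => mem_univ _,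
    fun n => ?_, ?_⟩
  · cases n with
    | zero =>
      change R.mu ((⋃ m, (R.B m).source)ᶜ) < ⊤
      rw [meas_mu_compl R (isOpen_iUnion fun m => (R.B m).open_source).measurableSet.compl]
      · exact ENNReal.zero_lt_top
      · intro n x hx hx'
        exact hx' (mem_iUnion.2 ⟨n, hx⟩)
    | succ n => exact meas_mu_part_lt R n
  · ext x
    simp only [mem_iUnion, mem_univ, iff_true]
    by_cases h : x ∈ ⋃ m, (R.B m).source
    · obtain ⟨m, hm⟩ := mem_iUnion.1 h
      exact ⟨R.idx x + 1, meas_idx_mem R hm, rfl⟩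
    · exact ⟨0, h⟩

theorem meas_compact_lt {D : DilationSurface X} (R : D.Ref) {K : Set X} (hK : IsCompact K)
    (hc : K ⊆ (D.cone)ᶜ) : R.mu K < ⊤ := by
  obtain ⟨t, ht⟩ := hK.elim_finite_subcover (fun n => (R.B n).source)
    (fun n => (R.B n).open_source) (fun x hx => by
      obtain ⟨n, hn⟩ := R.cov x (hc hx)
      exact mem_iUnion.2 ⟨n, hn⟩)
  have h1 : K ⊆ ⋃ n ∈ Finset.range (t.sup id + 1), measPart R n := by
    intro x hx
    obtain ⟨n, hn, hxn⟩ := mem_iUnion₂.1 (ht hx)
    refine mem_iUnion₂.2 ⟨R.idx x, ?_, meas_idx_mem R hxn, rfl⟩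
    have h2 := meas_idx_le R hxn
    have h3 : n ≤ t.sup id := Finset.le_sup (f := id) hn
    exact Finset.mem_range.2 (by omega)
  refine lt_of_le_of_lt (measure_mono h1) ?_
  refine lt_of_le_of_lt (measure_biUnion_finset_le _ _) ?_
  exact ENNReal.sum_lt_top.2 fun n _ => meas_mu_part_lt R n

theorem meas_rat_measurable {D : DilationSurface X} (R : D.Ref)
    {b : OpenPartialHomeomorph X ℂ} (hb : D.IsBall b) :
    Measurable (fun z : B1 => rat b (R.ch (b.symm z)) (b.symm z)) := by
  have hcont : Continuous (fun z : B1 => b.symm z) := by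
    have := continuousOn_iff_continuous_domRestrict.1 b.continuousOn_symm
    rw [hb.2] at this
    exact this
  intro S hS
  have h1 : (fun z : B1 => rat b (R.ch (b.symm z)) (b.symm z)) ⁻¹' S =
      ⋃ n, ({z : B1 | b.symm z ∈ measPart R n} ∩
        {z : B1 | b.symm z ∈ (R.B n).source ∧ rat b (R.B n) (b.symm z) ∈ S}) := by
    ext z
    have hz : (z : ℂ) ∈ b.target := by rw [hb.2]; exact z.2
    have hreg : b.symm z ∉ D.cone := hb.1.1 _ (b.map_target hz)
    have hpart := meas_mem_part R hreg
    simp only [mem_preimage, mem_iUnion, mem_inter_iff, mem_ofPred_eq]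
    constructor
    · intro h
      exact ⟨R.idx (b.symm z), hpart, hpart.1, h⟩
    · rintro ⟨n, h1, h2, h3⟩
      have : R.idx (b.symm z) = n := h1.2
      rw [Ref.ch, this]
      exact h3
  rw [h1]
  refine MeasurableSet.iUnion fun n => MeasurableSet.inter ?_ ?_
  · exact hcont.measurable (meas_measurableSet_part R n)
  · apply IsOpen.measurableSet
    rw [isOpen_iff_mem_nhds]
    rintro z ⟨hz1, hz2⟩
    have hz : (z : ℂ) ∈ b.target := by rw [hb.2]; exact z.2
    have h2 := rat_eventually hb.1 (R.ball n).1 (b.map_target hz) hz1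
    have h3 := hcont.continuousAt (x := z)
    filter_upwards [h3.eventually h2, h3.eventually ((R.B n).open_source.mem_nhds hz1)]
      with w hw1 hw2
    exact ⟨hw2, by rw [hw1]; exact hz2⟩

/-- change of variables between two charts -/
theorem meas_change {D : DilationSurface X} {b e : OpenPartialHomeomorph X ℂ}
    (hb : D.IsChart b) (he : D.IsChart e) {S : Set X} (hS : MeasurableSet S)
    (hSb : S ⊆ b.source) (hSe : S ⊆ e.source) {F : X → ENNReal} (hF : Measurable F) :
    ∫⁻ x in S, F x ∂(cmeas e) = ∫⁻ z in b.target ∩ b.symm ⁻¹' S,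
      F (b.symm z) * ENNReal.ofReal ((rat b e (b.symm z)) ^ 2) := by
  rw [meas_setLIntegral_cmeas e hS hF]
  have himg : e.target ∩ e.symm ⁻¹' S = (fun z => e (b.symm z)) '' (b.target ∩ b.symm ⁻¹' S) := by
    ext w
    constructor
    · rintro ⟨h1, h2⟩
      have h3 := hSb h2
      refine ⟨b (e.symm w), ⟨b.map_source h3, ?_⟩, ?_⟩
      · simp only [mem_preimage, b.left_inv h3]; exact h2
      · simp only [b.left_inv h3, e.right_inv h1]
    · rintro ⟨z, ⟨h1, h2⟩, rfl⟩
      have h3 := hSe h2
      refine ⟨e.map_source h3, ?_⟩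
      simp only [mem_preimage, e.left_inv h3]; exact h2
  rw [himg, lintegral_image_eq_lintegral_abs_det_fderiv_mul (μ := volume)
    (f' := fun z => (rat b e (b.symm z)) • ContinuousLinearMap.id ℝ ℂ) (meas_preimage b hS)]
  · refine setLIntegral_congr_fun (meas_preimage b hS) ?_
    rintro z ⟨h1, h2⟩
    have h3 : |((rat b e (b.symm z)) • ContinuousLinearMap.id ℝ ℂ).det| =
        (rat b e (b.symm z)) ^ 2 := by
      rw [ContinuousLinearMap.det]
      simp only [ContinuousLinearMap.toLinearMap_smul, ContinuousLinearMap.coe_id, LinearMap.det_smul,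
        Complex.finrank_real_complex, LinearMap.det_id, mul_one]
      exact abs_of_nonneg (sq_nonneg _)
    simp only [h3]
    rw [e.left_inv (hSe h2), mul_comm]
  · rintro z ⟨h1, h2⟩
    apply HasFDerivAt.hasFDerivWithinAt
    obtain ⟨r, hr⟩ := isChart_dil hb he (hSb h2) (hSe h2)
    obtain ⟨-, β, h3⟩ := rat_spec hr
    have hcont : ContinuousAt b.symm z := b.symm.continuousAt h1
    have h4 : ∀ᶠ w in 𝓝 z, e (b.symm w) = rat b e (b.symm z) * w + β := by
      filter_upwards [hcont.eventually h3, b.open_target.mem_nhds h1] with w hw1 hw2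
      rw [hw1, b.right_inv hw2]
    have h5 : HasFDerivAt (fun w : ℂ => (rat b e (b.symm z) : ℂ) * w + β)
        ((rat b e (b.symm z)) • ContinuousLinearMap.id ℝ ℂ) z := by
      have h6 : (fun w : ℂ => (rat b e (b.symm z) : ℂ) * w + β) =
          fun w : ℂ => (rat b e (b.symm z)) • w + β := by
        funext w; simp
      rw [h6]
      exact ((hasFDerivAt_id (𝕜 := ℝ) z).const_smul (rat b e (b.symm z))).add_const β
    exact h5.congr_of_eventuallyEq h4
  · rintro z ⟨h1, h2⟩ w ⟨h3, h4⟩ h5
    have h6 := e.injOn (hSe h2) (hSe h4) h5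
    have := congrArg b h6
    rwa [b.right_inv h1, b.right_inv h3] at this

theorem meas_ball {D : DilationSurface X} (R : D.Ref)
    {b : OpenPartialHomeomorph X ℂ} (hb : D.IsBall b) {F : X → ENNReal} (hF : Measurable F) :
    ∫⁻ x in b.source, F x ∂(R.mu) =
      ∫⁻ z in B1, F (b.symm z) * ENNReal.ofReal ((rat b (R.ch (b.symm z)) (b.symm z)) ^ 2) := by
  have hbs : MeasurableSet b.source := b.open_source.measurableSet
  have h1 : B1 = ⋃ n, (b.target ∩ b.symm ⁻¹' (b.source ∩ measPart R n)) := by
    ext z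
    simp only [mem_iUnion, mem_inter_iff, mem_preimage, hb.2]
    constructor
    · intro hz
      have hz' : (z : ℂ) ∈ b.target := by rw [hb.2]; exact hz
      have hs := b.map_target hz'
      exact ⟨_, hz, hs, meas_mem_part R (hb.1.1 _ hs)⟩
    · rintro ⟨n, hz, -⟩
      exact hz
  rw [h1, lintegral_iUnion (fun n => meas_preimage b (hbs.inter (meas_measurableSet_part R n))),
    Ref.mu, Measure.restrict_sum _ hbs, lintegral_sum_measure]
  · refine tsum_congr fun n => ?_
    rw [Measure.restrict_restrict hbs]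
    have h2 := meas_change hb.1 (R.ball n).1 (hbs.inter (meas_measurableSet_part R n))
      inter_subset_left (fun x hx => hx.2.1) hF
    have h3 : b.source ∩ {x | x ∈ (R.B n).source ∧ R.idx x = n} = b.source ∩ measPart R n := rfl
    rw [h3, h2]
    refine setLIntegral_congr_fun (meas_preimage b (hbs.inter (meas_measurableSet_part R n))) ?_
    rintro z ⟨hz1, hz2⟩
    have h4 : R.idx (b.symm z) = n := hz2.2.2
    simp only [Ref.ch, h4]
  · intro m n hmn
    refine Set.disjoint_left.2 ?_
    rintro z ⟨h1, h2⟩ ⟨h3, h4⟩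
    exact hmn (h2.2.2.symm.trans h4.2.2)

theorem meas_pos {D : DilationSurface X} (R : D.Ref) {U : Set X} (hU : IsOpen U)
    (hne : U.Nonempty) : 0 < R.mu U := by
  -- a regular point of `U`
  obtain ⟨x, hxU, hx⟩ : ∃ x ∈ U, x ∉ D.cone := by
    obtain ⟨p, hp⟩ := hne
    by_cases hpc : p ∈ D.cone
    · obtain ⟨k, ψ, hk, hs, h0, hm⟩ := D.cone_model p hpc
      obtain ⟨y, ⟨hy1, hy2⟩, hy3⟩ := chart_frequently_ne ψ hs
        (p := fun y => y ∈ U ∧ y ∈ ψ.source)
        (inter_mem (hU.mem_nhds hp) (ψ.open_source.mem_nhds hs))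
      exact ⟨y, hy1, (hm y hy2 (fun h => hy3 (by rw [h]))).1⟩
    · exact ⟨p, hp, hpc⟩
  obtain ⟨b, hb, hxb, -, -⟩ := sb_BALL X D x hx univ univ_mem
  have h1 := meas_ball R hb (F := U.indicator fun _ => 1) (measurable_const.indicator hU.measurableSet)
  by_contra hzero
  have hmu : R.mu U = 0 := by simpa using hzero
  have h2 : ∫⁻ x in b.source, U.indicator (fun _ => (1 : ENNReal)) x ∂(R.mu) = 0 := by
    rw [lintegral_indicator hU.measurableSet]
    simp only [lintegral_const, MeasurableSet.univ, Measure.restrict_apply, univ_inter, one_mul]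
    rw [Measure.restrict_apply' b.open_source.measurableSet]
    exact measure_mono_null inter_subset_left hmu
  rw [h2] at h1
  have hopen : IsOpen (b.target ∩ b.symm ⁻¹' U) :=
    b.continuousOn_symm.isOpen_inter_preimage b.open_target hU
  have hne' : (b.target ∩ b.symm ⁻¹' U).Nonempty :=
    ⟨b x, b.map_source hxb, by simpa [b.left_inv hxb] using hxU⟩
  have h3 : 0 < volume (b.target ∩ b.symm ⁻¹' U) := hopen.measure_pos _ hne'
  have hmeas : Measurable (fun z : B1 => rat b (R.ch (b.symm z)) (b.symm z)) :=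
    meas_rat_measurable R hb
  have hB : MeasurableSet B1 := by rw [B1]; exact measurableSet_ball
  have h4 : AEMeasurable (fun z => U.indicator (fun _ => (1 : ENNReal)) (b.symm z) *
      ENNReal.ofReal ((rat b (R.ch (b.symm z)) (b.symm z)) ^ 2)) (volume.restrict B1) := by
    refine (aemeasurable_restrict_iff_comap_subtype hB).2 ?_
    apply Measurable.aemeasurable
    have hcont : Continuous (fun z : B1 => b.symm z) := by
      have := continuousOn_iff_continuous_domRestrict.1 b.continuousOn_symm
      rw [hb.2] at this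
      exact this
    exact ((measurable_const.indicator hU.measurableSet).comp hcont.measurable).mul
      (ENNReal.measurable_ofReal.comp (hmeas.pow_const 2))
  have h5 := (lintegral_eq_zero_iff' h4).1 h1.symm
  have h6 : ∀ᵐ z, z ∈ B1 → b.symm z ∉ U := by
    rw [Filter.EventuallyEq, ae_restrict_iff' hB] at h5
    filter_upwards [h5] with z hz hzB hzU
    have hz1 := hz hzB
    have hz' : (z : ℂ) ∈ b.target := by rw [hb.2]; exact hzB
    have hs := b.map_target hz'
    have hpart := meas_mem_part R (hb.1.1 _ hs)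
    obtain ⟨r, hr⟩ := isChart_dil hb.1 (R.ball (R.idx (b.symm z))).1 hs hpart.1
    have hr0 := (rat_spec hr).1
    simp only [Set.indicator_of_mem hzU, one_mul, Pi.zero_apply, ENNReal.ofReal_eq_zero] at hz1
    have : 0 < (rat b (R.ch (b.symm z)) (b.symm z)) ^ 2 := by
      have : rat b (R.ch (b.symm z)) (b.symm z) ≠ 0 := hr0
      positivity
    linarith
  have h7 : volume (b.target ∩ b.symm ⁻¹' U) = 0 := by
    have := (ae_iff.1 h6)
    refine measure_mono_null ?_ this
    rintro z ⟨hz1, hz2⟩
    simp only [mem_ofPred_eq, not_forall, not_not]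
    exact ⟨by rw [← hb.2]; exact hz1, hz2⟩
  exact absurd h7 h3.ne'

end

theorem sb_MEAS : SB_MEAS.{u} := by
  intro X _ _ _ _ _ D R
  refine ⟨?_, meas_sigmaFinite R, fun K hK hc => meas_compact_lt R hK hc,
    fun U hU hne => meas_pos R hU hne, meas_measurable_idx R,
    fun b hb => ⟨meas_rat_measurable R hb, fun F hF => meas_ball R hb hF⟩⟩
  exact meas_mu_compl R D.cone_finite.measurableSet fun n x hx => (R.ball n).1.1 x hx

end Pool.Agent.Helper73.Dil
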